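import Pool.Agent.K4H3.FE.Lev

/-!
The power residue symbols of `2^s - 1`, `2^s + 1`, `s` even, and the tests.
-/

namespace Pool.Agent.K4H3.FE

open Pool.Agent.Y875.FP

lemma two_pow_half (m : ℕ) : (2 : ZMod (Nat.fermatNumber m)) ^ 2 ^ m = -1 := by
  have h1 : ((Nat.fermatNumber m : ℕ) : ZMod (Nat.fermatNumber m)) = 0 := ZMod.natCast_self _
  have h2 : ((2 ^ 2 ^ m + 1 : ℕ) : ZMod (Nat.fermatNumber m)) = 0 := h1
  push_cast at h2
  linear_combination h2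

lemma two_pow_full (m : ℕ) : (2 : ZMod (Nat.fermatNumber m)) ^ 2 ^ (m + 1) = 1 := by
  rw [pow_succ, pow_mul, two_pow_half]
  norm_num

lemma two_pow_of_dvd {m E : ℕ} (h : 2 ^ (m + 1) ∣ E) :
    (2 : ZMod (Nat.fermatNumber m)) ^ E = 1 := by
  obtain ⟨c, rfl⟩ := h
  rw [pow_mul, two_pow_full, one_pow]

lemma two_pow_congr {m E E' : ℕ} (h : ((2 : ℤ) ^ (m + 1)) ∣ (E : ℤ) - E') :
    (2 : ZMod (Nat.fermatNumber m)) ^ E = 2 ^ E' := by
  have h3 : E ≡ E' [MOD 2 ^ (m + 1)] := by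
    apply Nat.ModEq.symm
    rw [Nat.modEq_iff_dvd]
    push_cast
    exact h
  have key : ∀ E : ℕ, (2 : ZMod (Nat.fermatNumber m)) ^ E = 2 ^ (E % 2 ^ (m + 1)) := by
    intro E
    conv_lhs => rw [← Nat.mod_add_div E (2 ^ (m + 1)), pow_add _ (E % 2 ^ (m + 1)), pow_mul,
      two_pow_full, one_pow, mul_one]
  rw [key E, key E', h3]

lemma bigm {m : ℕ} (hm : 4 ≤ m) : 2 * m + 4 < 2 ^ m := by
  induction m, hm using Nat.le_induction with
  | base => norm_num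
  | succ m hm ih => rw [pow_succ]; omega

theorem law_all {m : ℕ} (hm : 4 ≤ m) {r : ℕ} (hr : 1 ≤ r) : ∀ t : ℕ, r ≤ m → Odd t →
    ∃ E : ℕ, Law m r t E ∧ ((Nat.fermatNumber m).Prime →
      ((2 : ZMod (Nat.fermatNumber m)) ^ (2 ^ r * t) - 1) ^ (2 ^ (2 ^ m - (m + 1))) = 2 ^ E) := by
  have hb := bigm hm
  obtain ⟨T', hT'⟩ : ∃ c, 2 ^ (2 ^ m - (m + 1)) = 2 * c := by
    refine ⟨2 ^ (2 ^ m - (m + 1) - 1), ?_⟩
    rw [← pow_succ']
    congr 1
    omega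
  have key : ∀ y : ZMod (Nat.fermatNumber m), (y ^ 2 - 1) ^ (2 ^ (2 ^ m - (m + 1))) =
      (y - 1) ^ (2 ^ (2 ^ m - (m + 1))) * (-y - 1) ^ (2 ^ (2 ^ m - (m + 1))) := by
    intro y
    have h1 : (-y - 1) = -(y + 1) := by ring
    rw [h1, hT', pow_mul (-(y + 1)), neg_sq, ← pow_mul, ← mul_pow]
    congr 1
    ring
  induction r, hr using Nat.le_induction with
  | base =>
    intro t _ ht
    have ht' : Odd (t + 2 ^ m) := by
      apply ht.add_even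
      rw [Nat.even_pow]
      exact ⟨even_two, by omega⟩
    obtain ⟨E1, h1⟩ := exists_isInd m t (2 * m + 2)
    obtain ⟨E2, h2⟩ := exists_isInd m (t + 2 ^ m) (2 * m + 2)
    refine ⟨E1 + E2, law_one hm ht h1 h2, fun hF => ?_⟩
    have h3 := mersenne_index hm ht h1 hF
    have h4 := mersenne_index hm ht' h2 hF
    rw [pow_add _ E1 E2, ← h3, ← h4]
    have h5 : (2 : ZMod (Nat.fermatNumber m)) ^ (2 ^ 1 * t) = (2 ^ t) ^ 2 := by
      rw [← pow_mul]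
      congr 1
      ring
    have h6 : (2 : ZMod (Nat.fermatNumber m)) ^ (t + 2 ^ m) = -2 ^ t := by
      rw [pow_add, two_pow_half]
      ring
    rw [h5, h6]
    exact key _
  | succ r hr ih =>
    intro t hrm ht
    have ht' : Odd (t + 2 ^ (m - r)) := by
      apply ht.add_even
      rw [Nat.even_pow]
      exact ⟨even_two, by omega⟩
    obtain ⟨E1, h1, h1'⟩ := ih t (by omega) ht
    obtain ⟨E2, h2, h2'⟩ := ih (t + 2 ^ (m - r)) (by omega) ht'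
    refine ⟨E1 + E2, law_step hm hr hrm ht h1 h2, fun hF => ?_⟩
    rw [pow_add _ E1 E2, ← h1' hF, ← h2' hF]
    have h5 : (2 : ZMod (Nat.fermatNumber m)) ^ (2 ^ (r + 1) * t) = (2 ^ (2 ^ r * t)) ^ 2 := by
      rw [← pow_mul]
      congr 1
      ring
    have h6 : (2 : ZMod (Nat.fermatNumber m)) ^ (2 ^ r * (t + 2 ^ (m - r))) =
        -2 ^ (2 ^ r * t) := by
      rw [mul_add, ← pow_add, Nat.add_sub_cancel' (by omega), pow_add, two_pow_half]
      ring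
    rw [h5, h6]
    exact key _

lemma D2.four_dvd {N : ℕ} {c : ℤ} (h : D2 (N + 2) (4 * (c : ℚ))) : (2 : ℤ) ^ N ∣ c := by
  have h1 : D2 (N + 2) (((4 * c : ℤ)) : ℚ) := by push_cast; exact h
  obtain ⟨w, hw⟩ := h1.dvd
  refine ⟨w, ?_⟩
  have h2 : (2 : ℤ) ^ (N + 2) = 4 * 2 ^ N := by ring
  rw [h2, mul_assoc] at hw
  exact mul_left_cancel₀ (by norm_num) hw

lemma law_unique {m r t E E' : ℕ} (h : Law m r t E) (h' : Law m r t E') :
    (2 : ZMod (Nat.fermatNumber m)) ^ E = 2 ^ E' := by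
  apply two_pow_congr
  apply D2.four_dvd (N := m + 1)
  have := D2.sub h h'
  convert this using 1
  push_cast
  ring

lemma D2_AA {N μ r t K : ℕ} (hr : 1 ≤ r) (hK : 0 < K) (hN : N ≤ 2 ^ r) :
    D2 N (AA μ (2 ^ 2 ^ r) t K) := by
  have h1 := D2_AA_first (μ := μ) (t := t) hr hK
  have h2 : 2 ≤ 2 ^ r := by
    calc 2 = 2 ^ 1 := by norm_num
      _ ≤ 2 ^ r := Nat.pow_le_pow_right (by norm_num) hr
  have h3 : D2 N (tm μ (2 ^ 2 ^ r) t 0) := by
    rw [tm_zero]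
    apply D2.int_mul
    have h4 : (2 : ℤ) ^ N ∣ 2 ^ 2 ^ r := pow_dvd_pow _ hN
    have h5 := D2.of_dvd h4
    push_cast at h5
    exact h5
  have h6 := (h1.mono (M := N) (by omega)).add h3
  rwa [sub_add_cancel] at h6

lemma D2_del {N m r t : ℕ} (hm : 4 ≤ m) (hr : 1 ≤ r) (hN : N ≤ 2 ^ r + 1) :
    D2 N ((del m r t : ℤ) : ℚ) := by
  apply D2.of_dvd
  unfold del
  split_ifs with h1 h2
  · subst h1
    have e1 : (2 : ℤ) ^ N ∣ 2 ^ (m + 1) := pow_dvd_pow _ (by omega)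
    have e2 : (2 : ℤ) ^ N ∣ 2 ^ (m + 2) := pow_dvd_pow _ (by omega)
    exact dvd_add (e1.mul_right _) e2
  · subst h2
    exact pow_dvd_pow _ (by omega)
  · exact dvd_zero _

lemma law_D2 {N m r t E : ℕ} (hm : 4 ≤ m) (hr : 1 ≤ r) (hN : N ≤ 2 ^ r) (hN' : N ≤ m + 3)
    (h : Law m r t E) : D2 N (4 * (E : ℚ)) := by
  have h1 := (D2.mono hN' h).add ((D2_AA (μ := m - r) (t := t) (K := m + 2) hr (by omega)
    hN).int_mul t)
  have h2 := h1.add (D2_del (t := t) hm hr (by omega : N ≤ 2 ^ r + 1))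
  convert h2 using 1
  push_cast
  ring

/-- the exact power of two dividing the index -/
lemma law_exact {m r t E : ℕ} (hm : 4 ≤ m) (hr : 1 ≤ r) (hrm : 2 ^ r ≤ m + 2) (ht : Odd t)
    (h : Law m r t E) : ∃ o : ℕ, Odd o ∧ E = 2 ^ (2 ^ r - 2) * o := by
  have h2 : 2 ≤ 2 ^ r := by
    calc 2 = 2 ^ 1 := by norm_num
      _ ≤ 2 ^ r := Nat.pow_le_pow_right (by norm_num) hr
  have h1 := (D2.mono (M := 2 ^ r + 1) (by omega) h).add (((D2_AA_first (μ := m - r) (t := t)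
    (K := m + 2) hr (by omega)).mono (M := 2 ^ r + 1) (by omega)).int_mul t)
  have h3 := h1.add (D2_del (t := t) hm hr (le_refl (2 ^ r + 1)))
  rw [tm_zero] at h3
  have h4 : D2 (2 ^ r + 1) ((4 * (E : ℤ) - t * (sgn (m - r) t 1 * 2 ^ 2 ^ r) : ℤ) : ℚ) := by
    convert h3 using 1
    push_cast
    ring
  obtain ⟨w, hw⟩ := h4.dvd
  obtain ⟨c, hc⟩ : ∃ c, 2 ^ r = c + 2 := ⟨2 ^ r - 2, by omega⟩
  rw [hc] at hw
  have h5 : (E : ℤ) = 2 ^ c * (t * sgn (m - r) t 1 + 2 * w) := by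
    have h6 : 4 * (E : ℤ) = 4 * (2 ^ c * (t * sgn (m - r) t 1 + 2 * w)) := by
      linear_combination hw
    exact mul_left_cancel₀ (by norm_num) h6
  have hodd : Odd ((t : ℤ) * sgn (m - r) t 1 + 2 * w) := by
    have h7 : Odd ((t : ℤ) * sgn (m - r) t 1) := by
      have h8 : Odd (sgn (m - r) t 1) := by
        rcases sgn_or (m - r) t 1 with h | h <;> rw [h]
        · exact odd_one
        · exact ⟨-1, by norm_num⟩
      have h9 : Odd (t : ℤ) := by exact_mod_cast ht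
      exact h9.mul h8
    exact h7.add_even (even_two_mul w)
  have hpos : 0 ≤ (t : ℤ) * sgn (m - r) t 1 + 2 * w := by
    by_contra hneg
    push Not at hneg
    have h10 : (E : ℤ) < 0 := by
      rw [h5]
      exact mul_neg_of_pos_of_neg (by positivity) hneg
    omega
  obtain ⟨o, ho⟩ := Int.eq_ofNat_of_zero_le hpos
  rw [ho] at h5 hodd
  refine ⟨o, by exact_mod_cast hodd, ?_⟩
  rw [hc, Nat.add_sub_cancel]
  exact_mod_cast h5

/-- The converse. -/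
theorem prime_of_pow {m c : ℕ} (hc : 2 ^ m ≤ 2 * (c + 1)) {b : ℕ}
    (h : (b : ZMod (Nat.fermatNumber m)) ^ 2 ^ c = -1) : (Nat.fermatNumber m).Prime := by
  by_contra hnp
  have hF3 := Nat.three_le_fermatNumber m
  have hp : (Nat.minFac (Nat.fermatNumber m)).Prime := Nat.minFac_prime (by omega)
  have hsq := Nat.minFac_sq_le_self (by omega) hnp
  have hdvd := Nat.minFac_dvd (Nat.fermatNumber m)
  set p := Nat.minFac (Nat.fermatNumber m) with hpdef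
  have : Fact p.Prime := ⟨hp⟩
  have h' : (b : ZMod p) ^ 2 ^ c = -1 := by
    have h1 := congrArg (ZMod.castHom hdvd (ZMod p)) h
    rw [map_pow, map_natCast, map_neg, map_one] at h1
    exact h1
  have hp2 : p ≠ 2 := by
    intro h2
    rw [h2] at hdvd
    exact (Nat.not_even_iff_odd.mpr (Nat.odd_fermatNumber m)) (even_iff_two_dvd.mpr hdvd)
  have hord : orderOf (b : ZMod p) = 2 ^ (c + 1) := by
    apply orderOf_eq_prime_pow
    · rw [h']
      have : Fact (2 < p) := ⟨by have := hp.two_le; omega⟩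
      exact ZMod.neg_one_ne_one
    · rw [pow_succ, pow_mul, h']
      ring
  have hb0 : (b : ZMod p) ≠ 0 := by
    intro h5
    rw [h5, zero_pow (by positivity)] at h'
    exact (neg_ne_zero.mpr one_ne_zero) h'.symm
  have hdvd2 : orderOf (b : ZMod p) ∣ p - 1 := ZMod.orderOf_dvd_card_sub_one hb0
  rw [hord] at hdvd2
  have hle := Nat.le_of_dvd (by have := hp.two_le; omega) hdvd2
  have hlt : 2 ^ (c + 1) + 1 ≤ p := by
    have := hp.two_le
    omega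
  have h1 : (2 ^ (c + 1) + 1) ^ 2 ≤ 2 ^ 2 ^ m + 1 := (Nat.pow_le_pow_left hlt 2).trans hsq
  have h2 : 2 ^ 2 ^ m ≤ (2 ^ (c + 1)) ^ 2 := by
    rw [← pow_mul]
    exact Nat.pow_le_pow_right (by norm_num) (by omega)
  have h3 : 0 < 2 ^ (c + 1) := by positivity
  nlinarith

lemma neg_one_of {m v o : ℕ} (hv : v ≤ m) (ho : Odd o) :
    ((2 : ZMod (Nat.fermatNumber m)) ^ (2 ^ v * o)) ^ 2 ^ (m - v) = -1 := by
  rw [← pow_mul]
  have h1 : 2 ^ v * o * 2 ^ (m - v) = 2 ^ m * o := by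
    have : 2 ^ m = 2 ^ v * 2 ^ (m - v) := by
      rw [← pow_add]
      congr 1
      omega
    rw [this]
    ring
  rw [h1, pow_mul, two_pow_half, ho.neg_one_pow]

/-- the two symbols when `2^r ≤ m + 2` -/
theorem small {m r t : ℕ} (hm : 4 ≤ m) (hr : 1 ≤ r) (hrm : 2 ^ r ≤ m + 2) (ht : Odd t)
    (hF : (Nat.fermatNumber m).Prime) :
    ((2 : ZMod (Nat.fermatNumber m)) ^ (2 ^ r * t) - 1) ^ 2 ^ (2 ^ m - (2 ^ r - 1)) = -1 ∧
    ((2 : ZMod (Nat.fermatNumber m)) ^ (2 ^ r * t) + 1) ^ 2 ^ (2 ^ m - (2 ^ r - 1)) = -1 := by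
  have hb := bigm hm
  have hrr : r + 1 ≤ m := by
    by_contra hc
    have : 2 ^ m ≤ 2 ^ r := Nat.pow_le_pow_right (by norm_num) (by omega)
    omega
  have h2 : 2 ≤ 2 ^ r := by
    calc 2 = 2 ^ 1 := by norm_num
      _ ≤ 2 ^ r := Nat.pow_le_pow_right (by norm_num) hr
  obtain ⟨E1, h1, h1'⟩ := law_all hm hr t (by omega) ht
  obtain ⟨E2, h3, h3'⟩ := law_all hm (r := r + 1) (by omega) t hrr ht
  obtain ⟨o, ho, hE1⟩ := law_exact hm hr hrm ht h1
  have hE2 : 2 ^ (2 ^ r - 1) ∣ E2 := by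
    have hp : 2 ^ (r + 1) = 2 * 2 ^ r := by ring
    have h4 := law_D2 (N := 2 ^ r - 1 + 2) hm (by omega) (by omega) (by omega) h3
    have h5 := D2.four_dvd (c := E2) (by push_cast; exact h4)
    exact_mod_cast h5
  have h1' := h1' hF
  have h3' := h3' hF
  have hexp : 2 ^ m - (2 ^ r - 1) = (2 ^ m - (m + 1)) + (m - (2 ^ r - 2)) := by omega
  have hA : ((2 : ZMod (Nat.fermatNumber m)) ^ (2 ^ r * t) - 1) ^ 2 ^ (2 ^ m - (2 ^ r - 1)) =
      -1 := by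
    rw [hexp, pow_add 2 (2 ^ m - (m + 1)), pow_mul _ (2 ^ (2 ^ m - (m + 1))), h1', hE1]
    exact neg_one_of (by omega) ho
  refine ⟨hA, ?_⟩
  have hB : ((2 : ZMod (Nat.fermatNumber m)) ^ (2 ^ (r + 1) * t) - 1) ^
      2 ^ (2 ^ m - (2 ^ r - 1)) = 1 := by
    rw [hexp, pow_add 2 (2 ^ m - (m + 1)), pow_mul _ (2 ^ (2 ^ m - (m + 1))), h3', ← pow_mul]
    apply two_pow_of_dvd
    obtain ⟨w, hw⟩ := hE2
    refine ⟨w, ?_⟩
    rw [hw]
    have : 2 ^ (m + 1) = 2 ^ (2 ^ r - 1) * 2 ^ (m - (2 ^ r - 2)) := by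
      rw [← pow_add]
      congr 1
      omega
    rw [this]
    ring
  have hfac : (2 : ZMod (Nat.fermatNumber m)) ^ (2 ^ (r + 1) * t) - 1 =
      (2 ^ (2 ^ r * t) - 1) * (2 ^ (2 ^ r * t) + 1) := by
    have : (2 : ZMod (Nat.fermatNumber m)) ^ (2 ^ (r + 1) * t) = (2 ^ (2 ^ r * t)) ^ 2 := by
      rw [← pow_mul]
      congr 1
      ring
    rw [this]
    ring
  rw [hfac, mul_pow, hA] at hB
  linear_combination -hB

/-- the two symbols when `2^r > m + 2` -/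
theorem large {m r t : ℕ} (hm : 4 ≤ m) (hr : r ≤ m) (hrm : m + 2 < 2 ^ r) (ht : Odd t)
    (hF : (Nat.fermatNumber m).Prime) :
    ((2 : ZMod (Nat.fermatNumber m)) ^ (2 ^ r * t) - 1) ^ 2 ^ (2 ^ m - (m + 1)) = 1 ∧
    (r < m → ((2 : ZMod (Nat.fermatNumber m)) ^ (2 ^ r * t) + 1) ^ 2 ^ (2 ^ m - (m + 1)) = 1) := by
  have hr1 : 1 ≤ r := by
    by_contra hc
    have : r = 0 := by omega
    subst this
    omega
  have main : ∀ r, 1 ≤ r → r ≤ m → m + 2 < 2 ^ r →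
      ((2 : ZMod (Nat.fermatNumber m)) ^ (2 ^ r * t) - 1) ^ 2 ^ (2 ^ m - (m + 1)) = 1 := by
    intro r hr1 hr hrm
    obtain ⟨E, h1, h1'⟩ := law_all hm hr1 t hr ht
    rw [h1' hF]
    apply two_pow_of_dvd
    have h4 := law_D2 (N := m + 1 + 2) hm hr1 (by omega) (by omega) h1
    have h5 := D2.four_dvd (c := E) (by push_cast; exact h4)
    exact_mod_cast h5
  refine ⟨main r hr1 hr hrm, fun hlt => ?_⟩
  have h1 := main r hr1 hr hrm
  have hp : 2 ^ (r + 1) = 2 * 2 ^ r := by ring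
  have h2 := main (r + 1) (by omega) (by omega) (by omega)
  have hfac : (2 : ZMod (Nat.fermatNumber m)) ^ (2 ^ (r + 1) * t) - 1 =
      (2 ^ (2 ^ r * t) - 1) * (2 ^ (2 ^ r * t) + 1) := by
    have : (2 : ZMod (Nat.fermatNumber m)) ^ (2 ^ (r + 1) * t) = (2 ^ (2 ^ r * t)) ^ 2 := by
      rw [← pow_mul]
      congr 1
      ring
    rw [this]
    ring
  rw [hfac, mul_pow, h1, one_mul] at h2
  exact h2

end Pool.Agent.K4H3.FE
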