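import Pool.Agent.K4H3.FE.Step

/-!
The index law at all levels `r ≥ 1`.
-/

namespace Pool.Agent.K4H3.FE

open Pool.Agent.Y875.FP

lemma D2_OO_sub {μ r t K : ℕ} (hK : 0 < K) :
    D2 (3 * 2 ^ r) (OO μ (2 ^ 2 ^ r) t K - tm μ (2 ^ 2 ^ r) t 0) := by
  obtain ⟨K, rfl⟩ : ∃ L, K = L + 1 := ⟨K - 1, by omega⟩
  unfold OO
  rw [Finset.sum_range_succ']
  have h0 : 2 * 0 = 0 := rfl
  rw [h0, add_sub_cancel_right]
  apply D2.sum
  intro j _
  apply D2_tm
  intro e he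
  have he0 : e = 0 := by
    by_contra hne
    have h2 : 2 ∣ 2 * (j + 1) + 1 := (dvd_pow_self 2 hne).trans he
    omega
  subst he0
  have h3 : 3 ≤ 2 * (j + 1) + 1 := by omega
  calc 0 + 3 * 2 ^ r = 2 ^ r * 3 := by ring
    _ ≤ 2 ^ r * (2 * (j + 1) + 1) := Nat.mul_le_mul_left _ h3

lemma D2_AA_first {μ r t K : ℕ} (hr : 1 ≤ r) (hK : 0 < K) :
    D2 (2 * 2 ^ r - 1) (AA μ (2 ^ 2 ^ r) t K - tm μ (2 ^ 2 ^ r) t 0) := by
  obtain ⟨K, rfl⟩ : ∃ L, K = L + 1 := ⟨K - 1, by omega⟩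
  rw [AA_eq, Finset.sum_range_succ', add_sub_cancel_right]
  apply D2.sum
  intro j _
  apply D2_tm
  intro e he
  have h1 := Nat.le_of_dvd (by omega) he
  have h2 := le_of_two_pow_dvd (by omega) he
  have h3 : 2 ≤ 2 ^ r := by
    calc 2 = 2 ^ 1 := by norm_num
      _ ≤ 2 ^ r := Nat.pow_le_pow_right (by norm_num) hr
  have h4 : 2 ^ r * (j + 1 + 1) = 2 ^ r * j + 2 * 2 ^ r := by ring
  have h5 : 2 * j ≤ 2 ^ r * j := Nat.mul_le_mul_right _ h3
  have h6 : e ≤ 2 * j + 1 := by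
    rcases Nat.eq_zero_or_pos j with hj | hj
    · subst hj
      by_contra hc
      have : 2 ^ 2 ≤ 2 ^ e := Nat.pow_le_pow_right (by norm_num) (by omega)
      omega
    · omega
  omega

lemma D2_AA_two {μ t K : ℕ} (hK : 1 < K) :
    D2 4 (AA μ (2 ^ 2 ^ 1) t K - (tm μ (2 ^ 2 ^ 1) t 0 + tm μ (2 ^ 2 ^ 1) t 1)) := by
  obtain ⟨K, rfl⟩ : ∃ L, K = L + 1 + 1 := ⟨K - 2, by omega⟩
  rw [AA_eq, Finset.sum_range_succ', Finset.sum_range_succ']
  have h : ∑ k ∈ Finset.range K, tm μ (2 ^ 2 ^ 1) t (k + 1 + 1) + tm μ (2 ^ 2 ^ 1) t (0 + 1) +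
      tm μ (2 ^ 2 ^ 1) t 0 - (tm μ (2 ^ 2 ^ 1) t 0 + tm μ (2 ^ 2 ^ 1) t 1) =
      ∑ k ∈ Finset.range K, tm μ (2 ^ 2 ^ 1) t (k + 1 + 1) := by
    ring
  rw [h]
  apply D2.sum
  intro j _
  apply D2_tm
  intro e he
  have h2 := le_of_two_pow_dvd (by omega) he
  omega

lemma tm_zero (μ r t : ℕ) : tm μ (2 ^ 2 ^ r) t 0 = (sgn μ t 1 : ℚ) * 2 ^ 2 ^ r := by
  unfold tm
  simp

lemma sgn_sub_one (μ t k : ℕ) : ∃ c : ℤ, sgn μ t k = 1 + 2 * c := by
  rcases sgn_or μ t k with h | h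
  · exact ⟨0, by rw [h]; rfl⟩
  · exact ⟨-1, by rw [h]; rfl⟩

/-- the correction terms -/
def del (m r t : ℕ) : ℤ :=
  if r = 1 then 2 ^ (m + 1) * (sgn m t 2 - sgn m t 1) + 2 ^ (m + 2)
  else if r = 2 then 2 ^ (m + 1) else 0

/-- the index at level `r ≥ 1` -/
def Law (m r t E : ℕ) : Prop :=
  D2 (m + 3) (4 * E - t * AA (m - r) (2 ^ 2 ^ r) t (m + 2) - del m r t)

lemma law_one {m t E E' : ℕ} (hm : 4 ≤ m) (ht : Odd t) (h1 : IsInd m 2 t (2 * m + 4) E)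
    (h2 : IsInd m 2 (t + 2 ^ m) (2 * m + 4) E') : Law m 1 t (E + E') := by
  obtain ⟨μ, rfl⟩ : ∃ μ, m = μ + 1 := ⟨m - 1, by omega⟩
  have h1 : D2 (μ + 1 + 3) (4 * E - t * AA (μ + 1) 2 t (2 * (μ + 1) + 4)) := h1
  have h2 : D2 (μ + 1 + 3) (4 * E' - ((t + 2 ^ (μ + 1) : ℕ) : ℚ) *
    AA (μ + 1) 2 (t + 2 ^ (μ + 1)) (2 * (μ + 1) + 4)) := h2
  have hK : 2 * (μ + 1) + 4 = 2 * (μ + 1 + 2) := by ring
  rw [hK] at h1 h2
  have h3 := AA_step (μ := μ) (x := 2) (K := μ + 1 + 2) ht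
  have hx : (2 : ℕ) ^ 2 = 2 ^ 2 ^ 1 := by norm_num
  rw [hx] at h3
  have h4 := (D2_AA_two (μ := μ) (t := t) (K := μ + 1 + 2) (by omega)).pow_mul (c := μ)
  have h5 := (D2_OO_sub (μ := μ + 1) (r := 0) (t := t) (K := μ + 1 + 2) (by omega)).pow_mul
    (c := μ + 1)
  have hx0 : (2 : ℕ) ^ 2 ^ 0 = 2 := by norm_num
  rw [hx0] at h5
  have e0 : tm (μ + 1) 2 t 0 = (sgn (μ + 1) t 1 : ℚ) * 2 := by
    unfold tm; simp
  have e1 : tm μ (2 ^ 2 ^ 1) t 0 = (sgn μ t 1 : ℚ) * 4 := by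
    rw [tm_zero]; norm_num
  have e2 : tm μ (2 ^ 2 ^ 1) t 1 = (sgn μ t 2 : ℚ) * 8 := by
    unfold tm; norm_num
  rw [e1, e2] at h4
  rw [e0] at h5
  have h5 := h5.mono (M := μ + 1 + 3) (by norm_num)
  have h4 := h4.mono (M := μ + 1 + 3) (by omega)
  obtain ⟨c, hc⟩ := sgn_sub_one μ t 2
  have hs : sgn (μ + 1) t 2 = sgn μ t 1 := sgn_two_mul (k := 1) ht
  unfold Law
  have hmu : μ + 1 - 1 = μ := by omega
  have h6 := ((h1.add h2).add (h4.sub h5)).add (D2.int (N := μ + 1 + 3) c)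
  have hdel : del (μ + 1) 1 t = 2 ^ (μ + 1 + 1) * (sgn μ t 1 - sgn (μ + 1) t 1) +
      2 ^ (μ + 1 + 2) := by
    unfold del
    rw [if_pos rfl, hs]
  rw [hmu, hdel]
  convert h6 using 1
  rw [hc]
  push_cast at h3 ⊢
  linear_combination h3

lemma del_ge {m r t : ℕ} (hr : 3 ≤ r) : del m r t = 0 := by
  unfold del
  rw [if_neg (by omega), if_neg (by omega)]

lemma three_le_pow {r : ℕ} (hr : 3 ≤ r) : r + 3 ≤ 2 ^ r := by
  induction r, hr using Nat.le_induction with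
  | base => norm_num
  | succ r hr ih => rw [pow_succ]; omega

lemma law_step {m r t E E' : ℕ} (hm : 4 ≤ m) (hr : 1 ≤ r) (hrm : r + 1 ≤ m) (ht : Odd t)
    (h1 : Law m r t E) (h2 : Law m r (t + 2 ^ (m - r)) E') : Law m (r + 1) t (E + E') := by
  obtain ⟨μ, hμ⟩ : ∃ μ, m - r = μ + 1 := ⟨m - r - 1, by omega⟩
  have hμ' : m - (r + 1) = μ := by omega
  unfold Law at h1 h2 ⊢
  rw [hμ] at h1 h2
  rw [hμ']
  -- pass to `2 (m + 2)` terms
  have hA := D2_AA_sub (m := m) (μ := μ + 1) (t := t) (K := m + 2) (L := 2 * (m + 2)) hr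
    (by omega) (by omega)
  have hA' := D2_AA_sub (m := m) (μ := μ + 1) (t := t + 2 ^ (μ + 1)) (K := m + 2)
    (L := 2 * (m + 2)) hr (by omega) (by omega)
  have h3 := AA_step (μ := μ) (x := 2 ^ 2 ^ r) (K := m + 2) ht
  have hx : ((2 : ℕ) ^ 2 ^ r) ^ 2 = 2 ^ 2 ^ (r + 1) := by
    rw [← pow_mul, pow_succ]
  rw [hx] at h3
  -- errors
  have h5 := (D2_OO_sub (μ := μ + 1) (r := r) (t := t) (K := m + 2) (by omega)).pow_mul
    (c := μ + 1)
  rw [tm_zero] at h5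
  have h6 := (D2_AA_first (μ := μ) (r := r + 1) (t := t) (K := m + 2) (by omega)
    (by omega)).pow_mul (c := μ)
  rw [tm_zero] at h6
  have hlt := Nat.lt_two_pow_self (n := r)
  have hp2 : 2 ^ (r + 1) = 2 * 2 ^ r := by ring
  have h5 := h5.mono (M := m + 3) (by omega)
  have hp4 : 2 * 2 ^ (r + 1) - 1 = 4 * 2 ^ r - 1 := by rw [hp2]; ring_nf
  rw [hp4] at h6
  have h6 := h6.mono (M := m + 3) (by omega)
  have h7 := (((h1.add h2).add (hA.int_mul t)).add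
    (hA'.int_mul ((t + 2 ^ (μ + 1) : ℕ) : ℤ))).add (h6.sub h5)
  -- it remains to compare the corrections
  have hmain : D2 (m + 3) (((del m r t : ℤ) : ℚ) + ((del m r (t + 2 ^ (μ + 1)) : ℤ) : ℚ) +
      (2 ^ μ * ((sgn μ t 1 : ℚ) * 2 ^ 2 ^ (r + 1)) -
        2 ^ (μ + 1) * ((sgn (μ + 1) t 1 : ℚ) * 2 ^ 2 ^ r)) - ((del m (r + 1) t : ℤ) : ℚ)) := by
    rcases Nat.lt_or_ge r 3 with hr3 | hr3
    · rcases Nat.lt_or_ge r 2 with hr2 | hr2
      · -- `r = 1`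
        have hr1 : r = 1 := by omega
        subst hr1
        have hm2 : m = μ + 2 := by omega
        subst hm2
        have d1 : del (μ + 2) 1 t = 2 ^ (μ + 2 + 1) * (sgn (μ + 1) t 1 - sgn (μ + 2) t 1) +
            2 ^ (μ + 2 + 2) := by
          unfold del
          rw [if_pos rfl, show sgn (μ + 2) t 2 = sgn (μ + 1) t 1 from sgn_two_mul (k := 1) ht]
        have ht' : Odd (t + 2 ^ (μ + 1)) := by
          apply ht.add_even
          rw [Nat.even_pow]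
          exact ⟨even_two, by omega⟩
        have d2 : del (μ + 2) 1 (t + 2 ^ (μ + 1)) =
            2 ^ (μ + 2 + 1) * (-sgn (μ + 1) t 1 - sgn (μ + 2) (t + 2 ^ (μ + 1)) 1) +
            2 ^ (μ + 2 + 2) := by
          unfold del
          rw [if_pos rfl, show sgn (μ + 2) (t + 2 ^ (μ + 1)) 2 = sgn (μ + 1) (t + 2 ^ (μ + 1)) 1
            from sgn_two_mul (k := 1) ht', show sgn (μ + 1) (t + 2 ^ (μ + 1)) 1 =
            -sgn (μ + 1) t 1 from sgn_shift_odd (k := 0) (by omega) ht]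
        have d3 : del (μ + 2) (1 + 1) t = 2 ^ (μ + 2 + 1) := by
          unfold del
          rw [if_neg (by omega), if_pos rfl]
        obtain ⟨c, hc⟩ := quarter_id (m := μ + 2) (by omega) ht
        have hm1 : μ + 2 - 1 = μ + 1 := by omega
        rw [hm1, show sgn (μ + 2) t 2 = sgn (μ + 1) t 1 from sgn_two_mul (k := 1) ht] at hc
        obtain ⟨c', hc'⟩ := sgn_sub_one μ t 1
        have hc1 : (sgn (μ + 2) t 1 : ℚ) + sgn (μ + 2) (t + 2 ^ (μ + 1)) 1 + sgn (μ + 1) t 1 =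
          1 + 4 * c := by exact_mod_cast hc
        have h8 := D2.int (N := μ + 2 + 3) (-c + c' + 1)
        convert h8 using 1
        have e1 : (2 : ℚ) ^ 2 ^ (1 + 1) = 16 := by norm_num
        have e2 : (2 : ℚ) ^ 2 ^ 1 = 4 := by norm_num
        rw [d1, d2, d3, hc', e1, e2]
        push_cast
        linear_combination (-(2 : ℚ) ^ (μ + 2 + 1)) * hc1
      · -- `r = 2`
        have hr2 : r = 2 := by omega
        subst hr2
        have hm2 : m = μ + 3 := by omega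
        subst hm2
        have d1 : ∀ t, del (μ + 3) 2 t = 2 ^ (μ + 3 + 1) := by
          intro t
          unfold del
          rw [if_neg (by omega), if_pos rfl]
        rw [d1, d1, del_ge (by omega)]
        obtain ⟨c, hc⟩ := sgn_sub_one (μ + 1) t 1
        have h8 := D2.int (N := μ + 3 + 3) (4 * sgn μ t 1 - c)
        convert h8 using 1
        rw [hc]
        have e1 : (2 : ℚ) ^ 2 ^ (2 + 1) = 256 := by norm_num
        have e2 : (2 : ℚ) ^ 2 ^ 2 = 16 := by norm_num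
        rw [e1, e2]
        push_cast
        ring
    · rw [del_ge hr3, del_ge hr3, del_ge (by omega)]
      have h8 := three_le_pow hr3
      have h9 : (2 : ℤ) ^ (m + 3) ∣ 2 ^ μ * (sgn μ t 1 * 2 ^ 2 ^ (r + 1)) := by
        rw [mul_left_comm, ← pow_add]
        apply Dvd.dvd.mul_left
        apply pow_dvd_pow
        omega
      have h10 : (2 : ℤ) ^ (m + 3) ∣ 2 ^ (μ + 1) * (sgn (μ + 1) t 1 * 2 ^ 2 ^ r) := by
        rw [mul_left_comm, ← pow_add]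
        apply Dvd.dvd.mul_left
        apply pow_dvd_pow
        omega
      have h11 := D2.of_dvd (dvd_sub h9 h10)
      convert h11 using 1
      push_cast
      ring
  have h12 := h7.add hmain
  convert h12 using 1
  push_cast at h3 ⊢
  linear_combination h3

end Pool.Agent.K4H3.FE
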