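import Pool.Agent.K4H3.FE.Ser

/-!
The index of `2^s - 1`, `s` odd, in terms of the partial sums of `∑ 2^k / k`.
-/

namespace Pool.Agent.K4H3.FE

open Pool.Agent.Y875.FP

/-- `s c ≡ ± 1` modulo `2^(m+1)`, with sign `η` -/
def Inv (m s c : ℕ) (η : ℤ) : Prop :=
  (η = 1 ∧ s * c ≡ 1 [MOD 2 ^ (m + 1)]) ∨ (η = -1 ∧ s * c + 1 ≡ 0 [MOD 2 ^ (m + 1)])

lemma Inv.sq {m s c : ℕ} {η : ℤ} (h : Inv m s c η) : η = 1 ∨ η = -1 := by
  rcases h with h | h
  · exact Or.inl h.1
  · exact Or.inr h.1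

/-- the sign in terms of `c` -/
lemma sgn_inv {m s c : ℕ} {η : ℤ} (h : Inv m s c η) (k : ℕ)
    (h0 : (k * c) % 2 ^ (m + 1) ≠ 0) (h1 : (k * c) % 2 ^ (m + 1) ≠ 2 ^ m) :
    sgn m s k = η * (if (k * c) % 2 ^ (m + 1) < 2 ^ m then 1 else -1) := by
  have h2 : (2 : ℕ) ^ (m + 1) = 2 * 2 ^ m := by ring
  rcases h with ⟨rfl, h⟩ | ⟨rfl, h⟩
  · rw [sgn_eq k h, one_mul]
  · -- the inverse of `s` is `(2^(m+1) - 1) c`
    have h3 : s * ((2 ^ (m + 1) - 1) * c) ≡ 1 [MOD 2 ^ (m + 1)] := by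
      have hpos : 1 ≤ 2 ^ (m + 1) := Nat.one_le_two_pow
      have e1 : s * ((2 ^ (m + 1) - 1) * c) + (s * c + 1) = 1 + 2 ^ (m + 1) * (s * c) := by
        obtain ⟨L, hL⟩ : ∃ L, 2 ^ (m + 1) = L + 1 := ⟨2 ^ (m + 1) - 1, by omega⟩
        rw [hL, Nat.add_sub_cancel]
        ring
      have e2 : s * ((2 ^ (m + 1) - 1) * c) + (s * c + 1) ≡ 1 + 0 [MOD 2 ^ (m + 1)] := by
        rw [e1]
        exact Nat.ModEq.add_left _ ((Nat.modEq_zero_iff_dvd).mpr (dvd_mul_right _ _))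
      have e3 : s * ((2 ^ (m + 1) - 1) * c) + (s * c + 1) ≡
          s * ((2 ^ (m + 1) - 1) * c) + 0 [MOD 2 ^ (m + 1)] := Nat.ModEq.add_left _ h
      simpa using e3.symm.trans e2
    rw [sgn_eq k h3]
    have h4 : (k * ((2 ^ (m + 1) - 1) * c)) % 2 ^ (m + 1) = 2 ^ (m + 1) - (k * c) % 2 ^ (m + 1) := by
      have hlt := Nat.mod_lt (k * c) (show 0 < 2 ^ (m + 1) by positivity)
      set r := (k * c) % 2 ^ (m + 1) with hr
      obtain ⟨L, hL⟩ : ∃ L, 2 ^ (m + 1) = L + 1 :=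
        ⟨2 ^ (m + 1) - 1, by have := Nat.one_le_two_pow (n := m + 1); omega⟩
      have e1 : k * ((2 ^ (m + 1) - 1) * c) = (2 ^ (m + 1) - 1) * (k * c) := by ring
      have e2 : ((2 ^ (m + 1) - 1) * (k * c)) % 2 ^ (m + 1) =
          ((2 ^ (m + 1) - 1) * r) % 2 ^ (m + 1) := by rw [hr, Nat.mul_mod_mod]
      rw [e1, e2, hL, Nat.add_sub_cancel]
      have e3 : L * r = (L + 1 - r) + (L + 1) * (r - 1) := by
        obtain ⟨r', hr'⟩ : ∃ r', r = r' + 1 := ⟨r - 1, by omega⟩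
        rw [hr', Nat.add_sub_cancel]
        have : r' ≤ L := by omega
        obtain ⟨d, hd⟩ := Nat.exists_eq_add_of_le this
        subst hd
        have : r' + d + 1 - (r' + 1) = d := by omega
        rw [this]
        ring
      rw [e3, Nat.add_mul_mod_self_left]
      exact Nat.mod_eq_of_lt (by omega)
    rw [h4]
    have hlt := Nat.mod_lt (k * c) (show 0 < 2 ^ (m + 1) by positivity)
    by_cases h5 : (k * c) % 2 ^ (m + 1) < 2 ^ m
    · rw [if_neg (by omega), if_pos h5]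
      norm_num
    · rw [if_pos (by omega), if_neg h5]
      norm_num

lemma mod_ne_half {m c k : ℕ} (hc : Odd c) (hk0 : 0 < k) (hk : k < 2 ^ m) :
    (k * c) % 2 ^ (m + 1) ≠ 0 ∧ (k * c) % 2 ^ (m + 1) ≠ 2 ^ m := by
  have hcop : Nat.Coprime (2 ^ m) c := (Nat.coprime_two_left.mpr hc).pow_left m
  have key : ¬ 2 ^ m ∣ k * c := by
    intro h
    have := Nat.le_of_dvd hk0 (hcop.dvd_of_dvd_mul_right h)
    omega
  have h2 : (2 : ℕ) ^ (m + 1) = 2 * 2 ^ m := by ring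
  have h3 := Nat.mod_add_div (k * c) (2 ^ (m + 1))
  constructor
  · intro h
    apply key
    exact (Nat.pow_dvd_pow 2 (by omega : m ≤ m + 1)).trans (Nat.dvd_of_mod_eq_zero h)
  · intro h
    apply key
    rw [h, h2] at h3
    refine ⟨1 + 2 * (k * c / (2 * 2 ^ m)), ?_⟩
    rw [mul_add, mul_one]
    nlinarith [h3]

/-- signs for `k ≤ N` -/
lemma sgn_low {m s c : ℕ} {η : ℤ} (h : Inv m s c η) (hc : Odd c) {k : ℕ} (hk0 : 0 < k)
    (hk : k < 2 ^ m) (hkN : k ≤ 2 ^ m / c) : sgn m s k = η := by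
  obtain ⟨h0, h1⟩ := mod_ne_half hc hk0 hk
  have hcpos : 0 < c := hc.pos
  have h2 : k * c ≤ 2 ^ m := (Nat.le_div_iff_mul_le hcpos).mp hkN
  have h3 : (2 : ℕ) ^ (m + 1) = 2 * 2 ^ m := by ring
  have hpos : 0 < 2 ^ m := by positivity
  have h4 : (k * c) % 2 ^ (m + 1) = k * c := Nat.mod_eq_of_lt (by omega)
  rw [sgn_inv h k h0 h1, if_pos (by omega), mul_one]

/-- signs for `N < k ≤ 2 N` -/
lemma sgn_mid {m s c : ℕ} {η : ℤ} (h : Inv m s c η) (hc : Odd c) {k : ℕ} (hk0 : 0 < k)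
    (hk : k < 2 ^ m) (hkN : 2 ^ m / c < k) (hkN' : k ≤ 2 * (2 ^ m / c)) : sgn m s k = -η := by
  obtain ⟨h0, h1⟩ := mod_ne_half hc hk0 hk
  have hcpos : 0 < c := hc.pos
  have h2 : 2 ^ m < k * c := (Nat.div_lt_iff_lt_mul hcpos).mp hkN
  have h3 : (2 : ℕ) ^ (m + 1) = 2 * 2 ^ m := by ring
  have h5 : k * c ≤ 2 * 2 ^ m := by
    calc k * c ≤ 2 * (2 ^ m / c) * c := Nat.mul_le_mul_right _ hkN'
      _ = 2 * (2 ^ m / c * c) := by ring
      _ ≤ 2 * 2 ^ m := Nat.mul_le_mul_left _ (Nat.div_mul_le_self _ _)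
  have h4 : (k * c) % 2 ^ (m + 1) = k * c := by
    apply Nat.mod_eq_of_lt
    rcases Nat.lt_or_ge (k * c) (2 ^ (m + 1)) with h6 | h6
    · exact h6
    · exfalso
      have h7 : k * c = 2 ^ (m + 1) := by omega
      rw [h7, Nat.mod_self] at h0
      exact h0 rfl
  rw [sgn_inv h k h0 h1, if_neg (by omega)]
  ring

/-- all numbers `k > 2 m + 4` satisfy `k - v_2(k) ≥ m + 3` -/
lemma tail_bound {m k e : ℕ} (hk : 2 * m + 4 < k) (he : 2 ^ e ∣ k) : e + (m + 3) ≤ k := by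
  have h1 := Nat.le_of_dvd (by omega) he
  have h2 : ∀ e : ℕ, 2 * e ≤ 2 ^ e := by
    intro e
    induction e with
    | zero => norm_num
    | succ e ih =>
      rcases Nat.eq_zero_or_pos e with h | h
      · subst h; norm_num
      · rw [pow_succ]; omega
  have h3 := h2 e
  omega

lemma sum_SS (a b : ℕ) (h : a ≤ b) : ∑ j ∈ Finset.Ico a b, aa j = SS b - SS a := by
  unfold SS
  rw [← Finset.sum_range_add_sum_Ico _ h]
  ring

/-- The value of the series. -/
lemma AA_eval {m s c b : ℕ} {η : ℤ} (hm : 4 ≤ m) (h : Inv m s c η) (hc : Odd c)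
    (hb : b ≤ m + 3) (hN : ∀ k, 2 * (2 ^ m / c) ≤ k → ∀ e : ℕ, 2 ^ e ∣ k + 1 → e + b ≤ k + 1) :
    D2 b (AA m 2 s (2 * m + 4) - η * (2 * SS (2 ^ m / c))) := by
  have hbig := bigm hm
  set N := 2 ^ m / c with hNdef
  set K := 2 * m + 4 with hK
  set N1 := min N K with hN1
  set N2 := min (2 * N) K with hN2
  have h12 : N1 ≤ N2 := by omega
  have h2K : N2 ≤ K := by omega
  have etm : ∀ j, tm m 2 s j = (sgn m s (j + 1) : ℚ) * aa j := by
    intro j
    unfold tm aa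
    push_cast
    rfl
  have e1 : AA m 2 s K = ∑ j ∈ Finset.range N1, tm m 2 s j +
      ∑ j ∈ Finset.Ico N1 N2, tm m 2 s j + ∑ j ∈ Finset.Ico N2 K, tm m 2 s j := by
    rw [AA_eq, Finset.sum_range_add_sum_Ico _ h12, Finset.sum_range_add_sum_Ico _ h2K]
  have e2 : ∑ j ∈ Finset.range N1, tm m 2 s j = η * SS N1 := by
    unfold SS
    rw [Finset.mul_sum]
    refine Finset.sum_congr rfl fun j hj => ?_
    rw [Finset.mem_range] at hj
    rw [etm, sgn_low h hc (by omega) (by omega) (by rw [← hNdef]; omega)]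
  have e3 : ∑ j ∈ Finset.Ico N1 N2, tm m 2 s j = -(η * (SS N2 - SS N1)) := by
    rw [← sum_SS _ _ h12, Finset.mul_sum, ← Finset.sum_neg_distrib]
    refine Finset.sum_congr rfl fun j hj => ?_
    rw [Finset.mem_Ico] at hj
    rw [etm, sgn_mid h hc (by omega) (by omega) (by rw [← hNdef]; omega)
      (by rw [← hNdef]; omega)]
    push_cast
    ring
  have e4 : D2 b (∑ j ∈ Finset.Ico N2 K, tm m 2 s j) := by
    apply D2.sum
    intro j hj
    rw [Finset.mem_Ico] at hj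
    rw [etm]
    apply D2.int_mul
    apply D2_aa
    exact hN j (by omega)
  have e5 : D2 b (SS N2) := by
    apply D2_SS
    intro k hk e he
    rcases Nat.lt_or_ge k (2 * N) with hlt | hge
    · have := tail_bound (m := m) (k := k + 1) (e := e) (by omega) he
      omega
    · exact hN k hge e he
  have e6 : D2 b (2 * SS N1 - 2 * SS N) := by
    rcases Nat.lt_or_ge K N with hlt | hge
    · have f1 : N1 = K := by omega
      have f2 : D2 b (SS K) := by
        apply D2_SS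
        intro k hk e he
        have := tail_bound (m := m) (k := k + 1) (e := e) (by omega) he
        omega
      have f3 : D2 b (SS N) := by
        apply D2_SS
        intro k hk e he
        have := tail_bound (m := m) (k := k + 1) (e := e) (by omega) he
        omega
      rw [f1]
      have := (f2.int_mul 2).sub (f3.int_mul 2)
      push_cast at this
      exact this
    · have f1 : N1 = N := by omega
      rw [f1, sub_self]
      exact D2.zero _
  have h7 := (((e6.int_mul η).sub (e5.int_mul η)).add e4)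
  convert h7 using 1
  rw [e1, e2, e3]
  ring

end Pool.Agent.K4H3.FE
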