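import Pool.Agent.K4H3.FE.Odd

/-!
The tests in the bases `2^s - 1`, `2^s + 1`, `s` odd.
-/

namespace Pool.Agent.K4H3.FE

open Pool.Agent.Y875.FP

lemma prime_of_pow' {m c : ℕ} (hc : 2 ^ m ≤ 2 * (c + 1)) {b : ZMod (Nat.fermatNumber m)}
    (h : b ^ 2 ^ c = -1) : (Nat.fermatNumber m).Prime := by
  have h3 := Nat.three_le_fermatNumber m
  have : NeZero (Nat.fermatNumber m) := ⟨by omega⟩
  apply prime_of_pow hc (b := b.val)
  rw [ZMod.natCast_zmod_val]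
  exact h

/-- the index of `2^s - 1` -/
def IdxOdd (m s E : ℕ) : Prop := IsInd m 2 s (2 * m + 4) E

lemma idx_D2 {m s c b E : ℕ} {η : ℤ} (hm : 4 ≤ m) (h : Inv m s c η) (hc : Odd c)
    (hb : b ≤ m + 3) (hN : ∀ k, 2 * (2 ^ m / c) ≤ k → ∀ e : ℕ, 2 ^ e ∣ k + 1 → e + b ≤ k + 1)
    (hE : IsInd m 2 s (2 * m + 4) E) :
    D2 b (4 * E - s * (η * (2 * SS (2 ^ m / c)))) := by
  have h1 : D2 (m + 3) (4 * E - s * AA m 2 s (2 * m + 4)) := hE
  have h2 := (h1.mono hb).add ((AA_eval hm h hc hb hN).int_mul s)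
  convert h2 using 1
  push_cast
  ring

/-- `N = 1` -/
lemma idx_one {m s c E : ℕ} {η : ℤ} (hm : 4 ≤ m) (hs : Odd s) (h : Inv m s c η) (hc : Odd c)
    (hN : 2 ^ m / c = 1) (hE : IsInd m 2 s (2 * m + 4) E) : Odd E := by
  have hbig := bigm hm
  have h1 : D2 (m + 3) (4 * E - s * AA m 2 s (2 * m + 4)) := hE
  have h2 := h1.mono (M := 3) (by omega)
  have e1 : AA m 2 s (2 * m + 4) = ∑ j ∈ Finset.range 4, tm m 2 s j +
      ∑ j ∈ Finset.Ico 4 (2 * m + 4), tm m 2 s j := by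
    rw [AA_eq, Finset.sum_range_add_sum_Ico _ (by omega)]
  have etm : ∀ j, tm m 2 s j = (sgn m s (j + 1) : ℚ) * aa j := by
    intro j
    unfold tm aa
    push_cast
    rfl
  have e2 : D2 3 (∑ j ∈ Finset.Ico 4 (2 * m + 4), tm m 2 s j) := by
    apply D2.sum
    intro j hj
    rw [Finset.mem_Ico] at hj
    rw [etm]
    apply D2.int_mul
    apply D2_aa
    intro e he
    have h3 := Nat.le_of_dvd (by omega) he
    have h4 : ∀ e : ℕ, 3 ≤ e → e + 5 ≤ 2 ^ e := by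
      intro e he
      induction e, he using Nat.le_induction with
      | base => norm_num
      | succ e he ih => rw [pow_succ]; omega
    rcases Nat.lt_or_ge e 3 with h5 | h5
    · interval_cases e
      · omega
      · omega
      · omega
    · have := h4 e h5
      omega
  have s1 : sgn m s 1 = η := sgn_low h hc (by omega) (by omega) (by omega)
  have s2 : sgn m s 2 = -η := sgn_mid h hc (by omega) (by omega) (by omega) (by omega)
  have e3 : D2 3 (∑ j ∈ Finset.range 4, tm m 2 s j - (sgn m s 4 : ℚ) * 4) := by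
    simp only [Finset.sum_range_succ, Finset.sum_range_zero, etm]
    rw [show (0 : ℕ) + 1 = 1 from rfl, show (1 : ℕ) + 1 = 2 from rfl, show (2 : ℕ) + 1 = 3 from rfl,
      show (3 : ℕ) + 1 = 4 from rfl, s1, s2]
    refine ⟨3, sgn m s 3, ⟨1, by norm_num⟩, ?_⟩
    unfold aa
    push_cast
    ring
  have h4 := (h2.add ((e2.add e3).int_mul s))
  have h5 : D2 3 ((4 * (E : ℤ) - 4 * (s * sgn m s 4) : ℤ) : ℚ) := by
    convert h4 using 1
    rw [e1]
    push_cast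
    ring
  obtain ⟨w, hw⟩ := h5.dvd
  have h6 : Odd ((s : ℤ) * sgn m s 4) := by
    have h7 : Odd (sgn m s 4) := by
      rcases sgn_or m s 4 with h | h <;> rw [h]
      · exact odd_one
      · exact ⟨-1, by norm_num⟩
    have h8 : Odd (s : ℤ) := by exact_mod_cast hs
    exact h8.mul h7
  obtain ⟨r, hr⟩ := h6
  rw [hr] at hw
  rw [Nat.odd_iff]
  omega

/-- general `N` -/
lemma idx_gen {m s c E v : ℕ} {η : ℤ} (hm : 4 ≤ m) (hs : Odd s) (h : Inv m s c η) (hc : Odd c)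
    (hv : v ≤ m) (hS : ∃ a w : ℤ, Odd a ∧ Odd w ∧ (w : ℚ) * SS (2 ^ m / c) = 2 ^ (v + 1) * a)
    (hN : ∀ k, 2 * (2 ^ m / c) ≤ k → ∀ e : ℕ, 2 ^ e ∣ k + 1 → e + (v + 3) ≤ k + 1)
    (hE : IsInd m 2 s (2 * m + 4) E) : ∃ o : ℕ, Odd o ∧ E = 2 ^ v * o := by
  obtain ⟨a, w, ha, hw, haw⟩ := hS
  have h1 := (idx_D2 hm h hc (b := v + 3) (by omega) hN hE).int_mul w
  have h2 : D2 (v + 3) ((4 * (E : ℤ) * w - 2 ^ (v + 2) * (s * η * a) : ℤ) : ℚ) := by
    convert h1 using 1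
    push_cast
    linear_combination ((s : ℚ) * η * 2) * haw
  obtain ⟨u, hu⟩ := h2.dvd
  have h3 : (E : ℤ) * w = 2 ^ v * (s * η * a + 2 * u) := by
    have h4 : 4 * ((E : ℤ) * w) = 4 * (2 ^ v * (s * η * a + 2 * u)) := by
      linear_combination hu
    exact mul_left_cancel₀ (by norm_num) h4
  have hη : Odd η := by
    rcases h.sq with h | h <;> rw [h]
    · exact odd_one
    · exact ⟨-1, by norm_num⟩
  have h8 : Odd (s : ℤ) := by exact_mod_cast hs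
  have hodd : Odd ((s : ℤ) * η * a + 2 * u) := ((h8.mul hη).mul ha).add_even (even_two_mul u)
  have hcop : IsCoprime ((2 : ℤ) ^ v) w := by
    apply IsCoprime.pow_left
    obtain ⟨c, hc⟩ := hw
    exact ⟨-c, 1, by rw [hc]; ring⟩
  have hdvd : (2 : ℤ) ^ v ∣ E := hcop.dvd_of_dvd_mul_right ⟨_, h3⟩
  have hdvd' : 2 ^ v ∣ E := by exact_mod_cast hdvd
  obtain ⟨o, ho⟩ := hdvd'
  refine ⟨o, ?_, ho⟩
  have h5 : (o : ℤ) * w = s * η * a + 2 * u := by
    rw [ho] at h3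
    push_cast at h3
    have h6 : (2 : ℤ) ^ v * ((o : ℤ) * w) = 2 ^ v * (s * η * a + 2 * u) := by
      linear_combination h3
    exact mul_left_cancel₀ (by positivity) h6
  rw [← h5] at hodd
  have h7 := (Int.odd_mul.mp hodd).1
  exact_mod_cast h7

/-- lower bound -/
lemma idx_low {m s c E e : ℕ} {η : ℤ} (hm : 4 ≤ m) (h : Inv m s c η) (hc : Odd c)
    (hcm : c < 2 ^ m) (he : e ≤ m + 1)
    (hN : ∀ k, 2 ^ m / c ≤ k → ∀ f : ℕ, 2 ^ f ∣ k + 1 → f + (e + 1) ≤ k + 1)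
    (hE : IsInd m 2 s (2 * m + 4) E) : 2 ^ e ∣ E := by
  have hN1 : 1 ≤ 2 ^ m / c := (Nat.one_le_div_iff hc.pos).mpr hcm.le
  have h0 := hN (2 ^ m / c) le_rfl 0 (by simp)
  have h2N : ∀ k, 2 * (2 ^ m / c) ≤ k → ∀ f : ℕ, 2 ^ f ∣ k + 1 → f + (e + 2) ≤ k + 1 := by
    intro k hk f hf
    rcases Nat.eq_zero_or_pos f with hf0 | hf0
    · subst hf0
      omega
    · obtain ⟨f, rfl⟩ : ∃ g, f = g + 1 := ⟨f - 1, by omega⟩
      have h2 : 2 ∣ k + 1 := (dvd_pow_self 2 (by omega)).trans hf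
      obtain ⟨l, hl⟩ := h2
      have hf2 : 2 ^ f ∣ l := by
        rw [hl, pow_succ'] at hf
        exact Nat.dvd_of_mul_dvd_mul_left (by norm_num) hf
      obtain ⟨l', rfl⟩ : ∃ l', l = l' + 1 := ⟨l - 1, by omega⟩
      have := hN l' (by omega) f hf2
      omega
  have h1 := idx_D2 hm h hc (b := e + 2) (by omega) h2N hE
  have h2 : D2 (e + 1) (SS (2 ^ m / c)) := D2_SS hN
  have h3 := (h2.pow_mul (c := 1)).mono (M := e + 2) (by omega)
  have h4 := h1.add ((h3.int_mul η).int_mul s)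
  have h5 : D2 (e + 2) (4 * ((E : ℤ) : ℚ)) := by
    convert h4 using 1
    push_cast
    ring
  have h6 := D2.four_dvd h5
  exact_mod_cast h6

/-- The law for an element of `ZMod F_m`. -/
def OddLaw (m N : ℕ) (b : ZMod (Nat.fermatNumber m)) : Prop :=
  (N = 1 → ((Nat.fermatNumber m).Prime ↔ b ^ 2 ^ (2 ^ m - 1) = -1)) ∧
  (∀ v, v ≤ m → (∃ a w : ℤ, Odd a ∧ Odd w ∧ (w : ℚ) * SS N = 2 ^ (v + 1) * a) →
    (∀ k, 2 * N ≤ k → ∀ e : ℕ, 2 ^ e ∣ k + 1 → e + (v + 3) ≤ k + 1) →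
    ((Nat.fermatNumber m).Prime ↔ b ^ 2 ^ (2 ^ m - (v + 1)) = -1)) ∧
  (∀ e, e ≤ m + 1 → (∀ k, N ≤ k → ∀ f : ℕ, 2 ^ f ∣ k + 1 → f + (e + 1) ≤ k + 1) →
    (Nat.fermatNumber m).Prime → b ^ 2 ^ (2 ^ m - e) = 1)

theorem odd_law {m s c : ℕ} {η : ℤ} (hm : 4 ≤ m) (hs : Odd s) (h : Inv m s c η) (hc : Odd c)
    (hcm : c < 2 ^ m) {b : ZMod (Nat.fermatNumber m)} (hb : b = 2 ^ s - 1 ∨ b = -(2 ^ s - 1)) :
    OddLaw m (2 ^ m / c) b := by
  have hbig := bigm hm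
  obtain ⟨E, hE⟩ := exists_isInd m s (2 * m + 2)
  have hE : IsInd m 2 s (2 * m + 4) E := hE
  have hsym : (Nat.fermatNumber m).Prime → b ^ 2 ^ (2 ^ m - (m + 1)) = 2 ^ E := by
    intro hF
    rw [← mersenne_index hm hs hE hF]
    rcases hb with hb | hb
    · rw [hb]
    · rw [hb]
      have hev : Even (2 ^ (2 ^ m - (m + 1))) := by
        rw [Nat.even_pow]
        exact ⟨even_two, by omega⟩
      exact hev.neg_pow _
  have htest : ∀ v o, v ≤ m → Odd o → E = 2 ^ v * o → (Nat.fermatNumber m).Prime →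
      b ^ 2 ^ (2 ^ m - (v + 1)) = -1 := by
    intro v o hv ho hEo hF
    have hexp : 2 ^ m - (v + 1) = (2 ^ m - (m + 1)) + (m - v) := by omega
    rw [hexp, pow_add 2 (2 ^ m - (m + 1)), pow_mul _ (2 ^ (2 ^ m - (m + 1))), hsym hF, hEo]
    exact neg_one_of hv ho
  refine ⟨fun hN => ⟨fun hF => ?_, fun h1 => prime_of_pow' (by omega) h1⟩,
    fun v hv hS hN => ⟨fun hF => ?_, fun h1 => prime_of_pow' (by omega) h1⟩,
    fun e he hN hF => ?_⟩
  · have hodd := idx_one hm hs h hc hN hE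
    exact htest 0 E (by omega) hodd (by simp) hF
  · obtain ⟨o, ho, hEo⟩ := idx_gen hm hs h hc hv hS hN hE
    exact htest v o hv ho hEo hF
  · have hd := idx_low hm h hc hcm he hN hE
    have hexp : 2 ^ m - e = (2 ^ m - (m + 1)) + (m + 1 - e) := by omega
    rw [hexp, pow_add 2 (2 ^ m - (m + 1)), pow_mul _ (2 ^ (2 ^ m - (m + 1))), hsym hF, ← pow_mul]
    apply two_pow_of_dvd
    obtain ⟨w, hw⟩ := hd
    refine ⟨w, ?_⟩
    rw [hw]
    have : 2 ^ (m + 1) = 2 ^ e * 2 ^ (m + 1 - e) := by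
      rw [← pow_add]
      congr 1
      omega
    rw [this]
    ring

/-- passing from `s` to `s + 2^m` -/
lemma Inv.shift {m s c : ℕ} {η : ℤ} (hm : 1 ≤ m) (h : Inv m s c η) (hs : Odd s) (hc : Odd c)
    (hcm : c < 2 ^ m) : Inv m (s + 2 ^ m) (2 ^ m - c) (-η) := by
  obtain ⟨d, hd⟩ : ∃ d, 2 ^ m = c + d := ⟨2 ^ m - c, by omega⟩
  have hev : Even (2 ^ m) := by rw [Nat.even_pow]; exact ⟨even_two, by omega⟩
  have hdodd : Odd d := by
    rw [hd, Nat.even_add'] at hev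
    exact hev.mp hc
  have hcd : 2 ^ m - c = d := by omega
  rw [hcd]
  obtain ⟨u, hu⟩ := hdodd
  obtain ⟨x, hx⟩ := hs
  -- `(s + 2^m) d + s c = 2^m (s + d)`
  have key : (s + 2 ^ m) * d + s * c = 2 ^ (m + 1) * (x + u + 1) := by
    have h1 : (s + 2 ^ m) * d + s * c = s * (c + d) + 2 ^ m * d := by ring
    rw [h1, ← hd, hx, hu]
    ring
  have key' : (s + 2 ^ m) * d + s * c ≡ 0 [MOD 2 ^ (m + 1)] := by
    rw [key]
    exact (Nat.modEq_zero_iff_dvd).mpr (dvd_mul_right _ _)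
  rcases h with ⟨rfl, h⟩ | ⟨rfl, h⟩
  · right
    refine ⟨rfl, ?_⟩
    have h2 : (s + 2 ^ m) * d + s * c ≡ (s + 2 ^ m) * d + 1 [MOD 2 ^ (m + 1)] :=
      Nat.ModEq.add_left _ h
    exact h2.symm.trans key'
  · left
    refine ⟨by norm_num, ?_⟩
    have h2 : (s + 2 ^ m) * d + (s * c + 1) ≡ (s + 2 ^ m) * d + 0 [MOD 2 ^ (m + 1)] :=
      Nat.ModEq.add_left _ h
    have h3 : (s + 2 ^ m) * d + s * c + 1 ≡ 0 + 1 [MOD 2 ^ (m + 1)] := key'.add_right 1
    rw [add_zero] at h2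
    have h4 : (s + 2 ^ m) * d + (s * c + 1) = (s + 2 ^ m) * d + s * c + 1 := by ring
    rw [h4] at h2
    exact h2.symm.trans (by simpa using h3)

theorem odd_law_add {m s c : ℕ} {η : ℤ} (hm : 4 ≤ m) (hs : Odd s) (h : Inv m s c η) (hc : Odd c)
    (hcm : c < 2 ^ m) : OddLaw m (2 ^ m / (2 ^ m - c)) (2 ^ s + 1) := by
  have hev : Even (2 ^ m) := by rw [Nat.even_pow]; exact ⟨even_two, by omega⟩
  have hs' : Odd (s + 2 ^ m) := hs.add_even hev
  have hc' : Odd (2 ^ m - c) := by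
    rw [Nat.odd_sub hcm.le]
    exact ⟨fun hh => absurd hev (Nat.not_even_iff_odd.mpr hh), fun hh => absurd hc
      (Nat.not_odd_iff_even.mpr hh)⟩
  apply odd_law hm hs' (h.shift (by omega) hs hc hcm) hc' (by have := hc.pos; omega)
  right
  rw [pow_add, two_pow_half]
  ring

lemma exists_Inv {m s : ℕ} (hm : 1 ≤ m) (hs : Odd s) :
    ∃ c η, Odd c ∧ c < 2 ^ m ∧ Inv m s c η := by
  obtain ⟨u, hu⟩ := exists_inv (m + 1) hs
  set v := u % 2 ^ (m + 1) with hv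
  have hlt : v < 2 ^ (m + 1) := Nat.mod_lt _ (by positivity)
  have hu' : s * v ≡ 1 [MOD 2 ^ (m + 1)] := by
    have h1 : s * v ≡ s * u [MOD 2 ^ (m + 1)] := Nat.ModEq.mul_left _ (Nat.mod_modEq _ _)
    exact h1.trans hu
  have hvodd : Odd v := odd_inv (by omega) hu'
  have h2 : (2 : ℕ) ^ (m + 1) = 2 * 2 ^ m := by ring
  have hev : Even (2 ^ m) := by rw [Nat.even_pow]; exact ⟨even_two, by omega⟩
  have hne : v ≠ 2 ^ m := by
    intro hh
    rw [hh] at hvodd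
    exact (Nat.not_odd_iff_even.mpr hev) hvodd
  rcases Nat.lt_or_ge v (2 ^ m) with h3 | h3
  · exact ⟨v, 1, hvodd, h3, Or.inl ⟨rfl, hu'⟩⟩
  · obtain ⟨d, hd⟩ : ∃ d, 2 ^ (m + 1) = v + d := ⟨2 ^ (m + 1) - v, by omega⟩
    have hdodd : Odd d := by
      have h5 : Even (v + d) := by rw [← hd, Nat.even_pow]; exact ⟨even_two, by omega⟩
      rw [Nat.even_add'] at h5
      exact h5.mp hvodd
    refine ⟨d, -1, hdodd, by omega, Or.inr ⟨rfl, ?_⟩⟩
    have h4 : s * d + s * v ≡ 0 [MOD 2 ^ (m + 1)] := by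
      have : s * d + s * v = 2 ^ (m + 1) * s := by rw [hd]; ring
      rw [this]
      exact (Nat.modEq_zero_iff_dvd).mpr (dvd_mul_right _ _)
    have h5 : s * d + s * v ≡ s * d + 1 [MOD 2 ^ (m + 1)] := Nat.ModEq.add_left _ hu'
    exact h5.symm.trans h4

/-- the table -/
def tab : List (ℕ × ℕ) := [(1, 0), (2, 1), (3, 1), (4, 4), (5, 7), (6, 4), (7, 4), (8, 12)]

lemma tab_law {m N v : ℕ} (h : (N, v) ∈ tab) (hv : v ≤ m) {b : ZMod (Nat.fermatNumber m)}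
    (hL : OddLaw m N b) : (Nat.fermatNumber m).Prime ↔ b ^ 2 ^ (2 ^ m - (v + 1)) = -1 := by
  have key : ∀ k e : ℕ, 2 ^ e ∣ k + 1 → ∀ N v : ℕ, (N, v) ∈ tab.tail → 2 * N ≤ k →
      e + (v + 3) ≤ k + 1 := by
    intro k e he N v hNv hk
    obtain ⟨o, ho⟩ := he
    rcases Nat.lt_or_ge e 5 with h5 | h5
    · simp only [tab, List.tail_cons, List.mem_cons, Prod.mk.injEq, List.not_mem_nil, or_false]
        at hNv
      interval_cases e <;> rcases hNv with h | h | h | h | h | h | h <;> omega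
    · have h6 : ∀ e : ℕ, 5 ≤ e → e + 15 ≤ 2 ^ e := by
        intro e he
        induction e, he using Nat.le_induction with
        | base => norm_num
        | succ e he ih => rw [pow_succ]; omega
      have h7 := h6 e h5
      have h8 : 1 ≤ o := by
        rcases Nat.eq_zero_or_pos o with h | h
        · rw [h] at ho; omega
        · exact h
      have h9 : 2 ^ e * 1 ≤ 2 ^ e * o := Nat.mul_le_mul_left _ h8
      have h10 : v ≤ 12 := by
        simp only [tab, List.tail_cons, List.mem_cons, Prod.mk.injEq, List.not_mem_nil, or_false]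
          at hNv
        omega
      omega
  have hSS : ∀ N, SS N = ∑ j ∈ Finset.range N, (2 : ℚ) ^ (j + 1) / ((j + 1 : ℕ) : ℚ) := fun _ => rfl
  have h' := h
  simp only [tab, List.mem_cons, Prod.mk.injEq, List.not_mem_nil, or_false] at h'
  rcases h' with h1 | h1
  · obtain ⟨rfl, rfl⟩ := h1
    exact hL.1 rfl
  · have htail : (N, v) ∈ tab.tail := by
      simp only [tab, List.tail_cons, List.mem_cons, Prod.mk.injEq, List.not_mem_nil, or_false]
      exact h1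
    refine hL.2.1 v hv ?_ (fun k hk e he => key k e he N v htail hk)
    rcases h1 with h1 | h1 | h1 | h1 | h1 | h1 | h1
    · obtain ⟨rfl, rfl⟩ := h1
      exact ⟨1, 1, odd_one, odd_one, by rw [hSS]; norm_num [Finset.sum_range_succ]⟩
    · obtain ⟨rfl, rfl⟩ := h1
      exact ⟨5, 3, ⟨2, by norm_num⟩, ⟨1, by norm_num⟩, by
        rw [hSS]; norm_num [Finset.sum_range_succ]⟩
    · obtain ⟨rfl, rfl⟩ := h1
      exact ⟨1, 3, odd_one, ⟨1, by norm_num⟩, by rw [hSS]; norm_num [Finset.sum_range_succ]⟩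
    · obtain ⟨rfl, rfl⟩ := h1
      exact ⟨1, 15, odd_one, ⟨7, by norm_num⟩, by rw [hSS]; norm_num [Finset.sum_range_succ]⟩
    · obtain ⟨rfl, rfl⟩ := h1
      exact ⟨13, 15, ⟨6, by norm_num⟩, ⟨7, by norm_num⟩, by
        rw [hSS]; norm_num [Finset.sum_range_succ]⟩
    · obtain ⟨rfl, rfl⟩ := h1
      exact ⟨151, 105, ⟨75, by norm_num⟩, ⟨52, by norm_num⟩, by
        rw [hSS]; norm_num [Finset.sum_range_succ]⟩
    · obtain ⟨rfl, rfl⟩ := h1
      exact ⟨1, 105, odd_one, ⟨52, by norm_num⟩, by rw [hSS]; norm_num [Finset.sum_range_succ]⟩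

end Pool.Agent.K4H3.FE
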