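import Pool.Agent.K4H3.FE.Fin

/-!
The case `t = 1`: no signs.
-/

namespace Pool.Agent.K4H3.FE

open Pool.Agent.Y875.FP

lemma sgn_one_small {μ k : ℕ} (hk : k < 2 ^ μ) : sgn μ 1 k = 1 := by
  rw [sgn_eq (u := 1) k (by rfl), mul_one]
  have h : k % 2 ^ (μ + 1) = k := by
    apply Nat.mod_eq_of_lt
    exact hk.trans (Nat.pow_lt_pow_right (by norm_num) (by omega))
  rw [h, if_pos hk]

lemma D2_one {m r : ℕ} (hm : 4 ≤ m) (hr : 1 ≤ r) (hrm : r ≤ m) :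
    D2 (m + 3) (AA (m - r) (2 ^ 2 ^ r) 1 (m + 2) -
      ∑ j ∈ Finset.range (m + 2), (2 : ℚ) ^ (2 ^ r * (j + 1)) / ((j + 1 : ℕ) : ℚ)) := by
  rw [AA_eq, ← Finset.sum_sub_distrib]
  apply D2.sum
  intro j hj
  rw [Finset.mem_range] at hj
  have h1 : (((2 : ℕ) ^ 2 ^ r : ℕ) : ℚ) ^ (j + 1) = (2 : ℚ) ^ (2 ^ r * (j + 1)) := by
    push_cast
    rw [← pow_mul]
  rcases Nat.lt_or_ge (j + 1) (2 ^ (m - r)) with hlt | hge
  · unfold tm
    rw [sgn_one_small hlt, h1]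
    simp only [Int.cast_one, one_mul, sub_self]
    exact D2.zero _
  · have hb := bigm hm
    have h2 : 2 ^ m ≤ 2 ^ r * (j + 1) := by
      calc 2 ^ m = 2 ^ r * 2 ^ (m - r) := by rw [← pow_add]; congr 1; omega
        _ ≤ 2 ^ r * (j + 1) := Nat.mul_le_mul_left _ hge
    have h3 : ∀ e : ℕ, 2 ^ e ∣ j + 1 → e + (m + 3) ≤ 2 ^ r * (j + 1) := by
      intro e he
      have := le_of_two_pow_dvd (by omega) he
      omega
    apply D2.sub
    · exact D2_tm h3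
    · exact D2.div (by omega) h3

end Pool.Agent.K4H3.FE
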