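import Pool.Agent.K4H3.FE.Fin

/-!
The partial sums of `∑ 2^k / k` and their `2`-adic valuations.
-/

namespace Pool.Agent.K4H3.FE

open Pool.Agent.Y875.FP

/-- `2^k / k` for `k = j + 1` -/
def aa (j : ℕ) : ℚ := (2 : ℚ) ^ (j + 1) / ((j + 1 : ℕ) : ℚ)

/-- `S_n = ∑_{k=1}^n 2^k / k` -/
def SS (n : ℕ) : ℚ := ∑ j ∈ Finset.range n, aa j

lemma D2_aa {b j : ℕ} (h : ∀ e : ℕ, 2 ^ e ∣ j + 1 → e + b ≤ j + 1) : D2 b (aa j) :=
  D2.div (by omega) h

/-- `(-1)^j C(2^M - 1, j) - 1` -/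
lemma D2_choose (M j : ℕ) (hj : j < M) :
    D2 (M - j) ((-1 : ℚ) ^ j * ((2 ^ M - 1).choose j : ℕ) - 1) := by
  induction j with
  | zero => simpa using D2.zero _
  | succ j ih =>
    have ih := (ih (by omega)).mono (M := M - (j + 1)) (by omega)
    obtain ⟨L, hL⟩ : ∃ L, 2 ^ M = L + 1 := ⟨2 ^ M - 1, by have := Nat.two_pow_pos M; omega⟩
    have hL' : 2 ^ M - 1 = L := by omega
    rw [hL'] at ih ⊢
    have h1 : (L + 1).choose (j + 1) = L.choose j + L.choose (j + 1) := Nat.choose_succ_succ L j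
    have h2 : (L + 1) * L.choose j = (L + 1).choose (j + 1) * (j + 1) :=
      Nat.add_one_mul_choose_eq L j
    -- `C(2^M, j+1) = 2^M / (j+1) * C(2^M - 1, j)`
    have h3 : (((L + 1).choose (j + 1) : ℕ) : ℚ) =
        ((L.choose j : ℕ) : ℤ) * ((2 : ℚ) ^ M / ((j + 1 : ℕ) : ℚ)) := by
      have h4 : ((L + 1 : ℕ) : ℚ) * (L.choose j : ℕ) = ((L + 1).choose (j + 1) : ℕ) * (j + 1 : ℕ) := by
        exact_mod_cast h2
      have h5 : ((j + 1 : ℕ) : ℚ) ≠ 0 := by exact_mod_cast Nat.succ_ne_zero j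
      have h6 : ((L + 1 : ℕ) : ℚ) = 2 ^ M := by rw [← hL]; push_cast; ring
      rw [h6] at h4
      rw [← mul_div_assoc, eq_div_iff h5, ← h4]
      push_cast
      ring
    have h7 : D2 (M - (j + 1)) (((L + 1).choose (j + 1) : ℕ) : ℚ) := by
      rw [h3]
      apply D2.int_mul
      apply D2.div (by omega)
      intro e he
      have := le_of_two_pow_dvd (by omega) he
      omega
    have h8 := ih.add ((h7.int_mul ((-1) ^ (j + 1))))
    convert h8 using 1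
    rw [h1]
    push_cast
    ring

lemma sum_choose (M : ℕ) (hM : 0 < M) :
    ∑ j ∈ Finset.range (2 ^ M), aa j * ((-1 : ℚ) ^ j * ((2 ^ M - 1).choose j : ℕ)) = 0 := by
  obtain ⟨L, hL⟩ : ∃ L, 2 ^ M = L + 1 := ⟨2 ^ M - 1, by have := Nat.two_pow_pos M; omega⟩
  have hL' : 2 ^ M - 1 = L := by omega
  have hev : Even (L + 1) := by rw [← hL, Nat.even_pow]; exact ⟨even_two, by omega⟩
  rw [hL', hL]
  have h1 : ((-2 : ℚ) + 1) ^ (L + 1) = 1 := by
    have : (-2 : ℚ) + 1 = -1 := by norm_num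
    rw [this, hev.neg_one_pow]
  rw [add_pow, Finset.sum_range_succ'] at h1
  simp only [one_pow, mul_one, pow_zero, Nat.choose_zero_right, Nat.cast_one] at h1
  have h2 : ∑ k ∈ Finset.range (L + 1), (-2 : ℚ) ^ (k + 1) * ((L + 1).choose (k + 1) : ℕ) = 0 := by
    linear_combination h1
  have h3 : ∀ k, (-2 : ℚ) ^ (k + 1) * ((L + 1).choose (k + 1) : ℕ) =
      -((L + 1 : ℕ) : ℚ) * (aa k * ((-1 : ℚ) ^ k * (L.choose k : ℕ))) := by
    intro k
    have h4 : ((L + 1 : ℕ) : ℚ) * (L.choose k : ℕ) = ((L + 1).choose (k + 1) : ℕ) * (k + 1 : ℕ) := by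
      exact_mod_cast Nat.add_one_mul_choose_eq L k
    have h5 : ((k + 1 : ℕ) : ℚ) ≠ 0 := by exact_mod_cast Nat.succ_ne_zero k
    unfold aa
    have h6 : (-2 : ℚ) ^ (k + 1) = (-1) ^ (k + 1) * 2 ^ (k + 1) := by
      rw [← mul_pow]; norm_num
    rw [h6]
    field_simp
    rw [pow_succ (-1 : ℚ) k]
    linear_combination ((-1 : ℚ) ^ k) * h4
  rw [Finset.sum_congr rfl fun k _ => h3 k, ← Finset.mul_sum] at h2
  rcases mul_eq_zero.mp h2 with h | h
  · exfalso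
    have h5 : ((L + 1 : ℕ) : ℚ) ≠ 0 := by exact_mod_cast Nat.succ_ne_zero L
    exact h5 (by linear_combination -h)
  · exact h

/-- The series `∑ 2^k / k` vanishes `2`-adically; hence the bound for the partial sums. -/
lemma D2_SS {n b : ℕ} (h : ∀ k, n ≤ k → ∀ e : ℕ, 2 ^ e ∣ k + 1 → e + b ≤ k + 1) :
    D2 b (SS n) := by
  set M := b + 2 * n + 1 with hM
  have hn : n ≤ 2 ^ M := by
    have := Nat.lt_two_pow_self (n := M)
    omega
  have h1 := sum_choose M (by omega)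
  rw [← Finset.sum_range_add_sum_Ico _ hn] at h1
  have h2 : D2 b (∑ j ∈ Finset.Ico n (2 ^ M), aa j * ((-1 : ℚ) ^ j * ((2 ^ M - 1).choose j : ℕ))) := by
    apply D2.sum
    intro j hj
    rw [Finset.mem_Ico] at hj
    have h3 := (D2_aa (h j hj.1)).int_mul ((-1) ^ j * ((2 ^ M - 1).choose j : ℕ))
    convert h3 using 1
    push_cast
    ring
  have h4 : D2 b (∑ j ∈ Finset.range n, aa j * ((-1 : ℚ) ^ j * ((2 ^ M - 1).choose j : ℕ) - 1)) := by
    apply D2.sum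
    intro j hj
    rw [Finset.mem_range] at hj
    obtain ⟨d, B, hd, hB⟩ := D2_choose M j (by omega)
    obtain ⟨d', B', hd', hB'⟩ := D2_aa (b := 0) (j := j) (by
      intro e he
      have := le_of_two_pow_dvd (by omega) he
      omega)
    refine ⟨d' * d, B' * B * 2 ^ (M - j - b), hd'.mul hd, ?_⟩
    have e1 : (2 : ℚ) ^ (M - j) = 2 ^ b * 2 ^ (M - j - b) := by
      rw [← pow_add]; congr 1; omega
    rw [e1] at hB
    push_cast
    rw [pow_zero, one_mul] at hB'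
    linear_combination (d : ℚ) * ((-1 : ℚ) ^ j * ((2 ^ M - 1).choose j : ℕ) - 1) * hB' +
      (B' : ℚ) * hB
  have h5 : SS n = -(∑ j ∈ Finset.range n, aa j * ((-1 : ℚ) ^ j * ((2 ^ M - 1).choose j : ℕ) - 1)) -
      ∑ j ∈ Finset.Ico n (2 ^ M), aa j * ((-1 : ℚ) ^ j * ((2 ^ M - 1).choose j : ℕ)) := by
    have h6 : ∑ j ∈ Finset.range n, aa j * ((-1 : ℚ) ^ j * ((2 ^ M - 1).choose j : ℕ) - 1) =
        ∑ j ∈ Finset.range n, aa j * ((-1 : ℚ) ^ j * ((2 ^ M - 1).choose j : ℕ)) - SS n := by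
      unfold SS
      rw [← Finset.sum_sub_distrib]
      exact Finset.sum_congr rfl fun j _ => by ring
    rw [h6]
    linear_combination h1
  rw [h5]
  exact h4.neg.sub h2

end Pool.Agent.K4H3.FE
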