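import Pool.Agent.Y875.FP.MerH

/-!
Signs `sgn μ t k` and their behaviour under `t ↦ t + 2^μ`, `k ↦ 2 k`.
-/

namespace Pool.Agent.K4H3.FE

open Pool.Agent.Y875.FP

lemma exists_inv (n : ℕ) {t : ℕ} (ht : Odd t) : ∃ u : ℕ, t * u ≡ 1 [MOD 2 ^ n] := by
  have hcop : Nat.Coprime t (2 ^ n) := by
    apply Nat.Coprime.pow_right
    rw [Nat.coprime_two_right]
    exact ht
  have hinv : (t : ZMod (2 ^ n)) * (t : ZMod (2 ^ n))⁻¹ = 1 := by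
    exact ZMod.coe_mul_inv_eq_one t hcop
  refine ⟨((t : ZMod (2 ^ n))⁻¹).val, ?_⟩
  rw [← ZMod.natCast_eq_natCast_iff]
  push_cast
  rw [ZMod.natCast_zmod_val, hinv]

lemma sgn_eq {μ t u : ℕ} (k : ℕ) (h : t * u ≡ 1 [MOD 2 ^ (μ + 1)]) :
    sgn μ t k = if (k * u) % 2 ^ (μ + 1) < 2 ^ μ then 1 else -1 := by
  have h1 : (t : ZMod (2 ^ (μ + 1)))⁻¹ = (u : ZMod (2 ^ (μ + 1))) := by
    have h2 : (t : ZMod (2 ^ (μ + 1))) * (u : ZMod (2 ^ (μ + 1))) = 1 := by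
      have := (ZMod.natCast_eq_natCast_iff _ _ _).mpr h
      push_cast at this
      exact this
    have hu : IsUnit (t : ZMod (2 ^ (μ + 1))) := IsUnit.of_mul_eq_one _ h2
    calc (t : ZMod (2 ^ (μ + 1)))⁻¹ = (t : ZMod (2 ^ (μ + 1)))⁻¹ * 1 := by rw [mul_one]
      _ = (t : ZMod (2 ^ (μ + 1)))⁻¹ * ((t : ZMod (2 ^ (μ + 1))) * u) := by rw [h2]
      _ = ((t : ZMod (2 ^ (μ + 1)))⁻¹ * (t : ZMod (2 ^ (μ + 1)))) * u := by ring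
      _ = (u : ZMod (2 ^ (μ + 1))) := by rw [ZMod.inv_mul_of_unit _ hu, one_mul]
  unfold sgn
  rw [h1, ← Nat.cast_mul, ZMod.val_natCast]

lemma odd_inv {n t u : ℕ} (hn : 1 ≤ n) (h : t * u ≡ 1 [MOD 2 ^ n]) : Odd u := by
  have h1 : t * u ≡ 1 [MOD 2] := h.of_dvd (dvd_pow_self 2 (by omega))
  have h2 : (t * u) % 2 = 1 := h1
  rw [← Nat.odd_iff, Nat.odd_mul] at h2
  exact h2.2

/-- doubling `k` -/
lemma sgn_two_mul {μ t : ℕ} (ht : Odd t) (k : ℕ) : sgn (μ + 1) t (2 * k) = sgn μ t k := by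
  obtain ⟨u, hu⟩ := exists_inv (μ + 2) ht
  have hu' : t * u ≡ 1 [MOD 2 ^ (μ + 1)] := hu.of_dvd (Nat.pow_dvd_pow 2 (by omega))
  rw [sgn_eq k hu', sgn_eq (2 * k) hu]
  have h1 : 2 * k * u = 2 * (k * u) := by ring
  have h2 : (2 : ℕ) ^ (μ + 1 + 1) = 2 * 2 ^ (μ + 1) := by ring
  rw [h1, h2, Nat.mul_mod_mul_left]
  have h3 : (2 : ℕ) ^ (μ + 1) = 2 * 2 ^ μ := by ring
  by_cases h : (k * u) % 2 ^ (μ + 1) < 2 ^ μ
  · rw [if_pos h, if_pos (by omega)]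
  · rw [if_neg h, if_neg (by omega)]

lemma inv_shift {μ t u : ℕ} (hμ : 1 ≤ μ) (ht : Odd t) (h : t * u ≡ 1 [MOD 2 ^ (μ + 1)]) :
    (t + 2 ^ μ) * (u + 2 ^ μ) ≡ 1 [MOD 2 ^ (μ + 1)] := by
  have hu := odd_inv (by omega) h
  obtain ⟨a, ha⟩ := ht
  obtain ⟨b, hb⟩ := hu
  obtain ⟨c, rfl⟩ : ∃ c, μ = c + 1 := ⟨μ - 1, by omega⟩
  have h1 : (t + 2 ^ (c + 1)) * (u + 2 ^ (c + 1)) =
      t * u + 2 ^ (c + 1 + 1) * (a + b + 1 + 2 ^ c) := by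
    rw [ha, hb]
    ring
  rw [h1]
  calc t * u + 2 ^ (c + 1 + 1) * (a + b + 1 + 2 ^ c) ≡ t * u [MOD 2 ^ (c + 1 + 1)] := by
        exact (Nat.modEq_iff_dvd' (by omega)).mpr ⟨a + b + 1 + 2 ^ c, by omega⟩ |>.symm
    _ ≡ 1 [MOD 2 ^ (c + 1 + 1)] := h

lemma sgn_shift_even {μ t : ℕ} (hμ : 1 ≤ μ) (ht : Odd t) (k : ℕ) :
    sgn μ (t + 2 ^ μ) (2 * k) = sgn μ t (2 * k) := by
  obtain ⟨u, hu⟩ := exists_inv (μ + 1) ht
  rw [sgn_eq _ (inv_shift hμ ht hu), sgn_eq _ hu]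
  have h1 : (2 * k * (u + 2 ^ μ)) = 2 * k * u + 2 ^ (μ + 1) * k := by ring
  rw [h1, Nat.add_mul_mod_self_left]

lemma mod_add_half {μ a : ℕ} :
    ((a + 2 ^ μ) % 2 ^ (μ + 1) < 2 ^ μ) ↔ ¬ (a % 2 ^ (μ + 1) < 2 ^ μ) := by
  have h2 : (2 : ℕ) ^ (μ + 1) = 2 * 2 ^ μ := by ring
  have hpos : 0 < 2 ^ μ := by positivity
  have h3 := Nat.mod_lt a (show 0 < 2 ^ (μ + 1) by positivity)
  have h4 : (a + 2 ^ μ) % 2 ^ (μ + 1) = (a % 2 ^ (μ + 1) + 2 ^ μ) % 2 ^ (μ + 1) := by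
    rw [Nat.mod_add_mod]
  rw [h4]
  generalize a % 2 ^ (μ + 1) = b at *
  rw [h2] at h3 ⊢
  generalize 2 ^ μ = c at *
  by_cases hb : b < c
  · have : (b + c) % (2 * c) = b + c := Nat.mod_eq_of_lt (by omega)
    rw [this]
    omega
  · have : (b + c) % (2 * c) = b - c := by
      have h5 : b + c = (b - c) + 2 * c := by omega
      rw [h5, Nat.add_mod_right]
      exact Nat.mod_eq_of_lt (by omega)
    rw [this]
    omega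

lemma sgn_shift_odd {μ t : ℕ} (hμ : 1 ≤ μ) (ht : Odd t) (k : ℕ) :
    sgn μ (t + 2 ^ μ) (2 * k + 1) = - sgn μ t (2 * k + 1) := by
  obtain ⟨u, hu⟩ := exists_inv (μ + 1) ht
  rw [sgn_eq _ (inv_shift hμ ht hu), sgn_eq _ hu]
  have h1 : ((2 * k + 1) * (u + 2 ^ μ)) = ((2 * k + 1) * u + 2 ^ μ) + 2 ^ (μ + 1) * k := by ring
  rw [h1, Nat.add_mul_mod_self_left]
  by_cases h : ((2 * k + 1) * u) % 2 ^ (μ + 1) < 2 ^ μ
  · rw [if_pos h, if_neg (by rw [mod_add_half]; exact not_not.mpr h)]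
  · rw [if_neg h, if_pos (by rw [mod_add_half]; exact h)]
    norm_num

/-- inverse of `t + 2^(m-1)` modulo `2^(m+1)` -/
lemma inv_quarter {m t u : ℕ} (hm : 3 ≤ m) (ht : Odd t) (h : t * u ≡ 1 [MOD 2 ^ (m + 1)]) :
    (t + 2 ^ (m - 1)) * (u + 3 * 2 ^ (m - 1)) ≡ 1 [MOD 2 ^ (m + 1)] := by
  have hu := odd_inv (by omega) h
  obtain ⟨a, ha⟩ := ht
  obtain ⟨b, hb⟩ := hu
  obtain ⟨c, rfl⟩ : ∃ c, m = c + 3 := ⟨m - 3, by omega⟩
  have hm1 : c + 3 - 1 = c + 2 := by omega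
  rw [hm1]
  -- `u + 3 t ≡ 0` modulo `4`
  have h8 : t * u ≡ 1 [MOD 4] := h.of_dvd ((show (4 : ℕ) ∣ 2 ^ 2 by norm_num).trans
    (Nat.pow_dvd_pow 2 (by omega)))
  have h9 : (u + 3 * t) % 4 = 0 := by
    have h10 : (t * u) % 4 = 1 := h8
    have ht4 : t % 4 = 1 ∨ t % 4 = 3 := by omega
    have hu4 : u % 4 = 1 ∨ u % 4 = 3 := by omega
    rw [Nat.mul_mod] at h10
    rcases ht4 with h1 | h1 <;> rcases hu4 with h2 | h2 <;> rw [h1, h2] at h10 <;> omega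
  obtain ⟨d, hd⟩ := Nat.dvd_of_mod_eq_zero h9
  have h1 : (t + 2 ^ (c + 2)) * (u + 3 * 2 ^ (c + 2)) =
      t * u + 2 ^ (c + 3 + 1) * (d + 3 * 2 ^ c) := by
    have h2 : (t + 2 ^ (c + 2)) * (u + 3 * 2 ^ (c + 2)) =
      t * u + 2 ^ (c + 2) * (u + 3 * t) + 3 * (2 ^ (c + 2) * 2 ^ (c + 2)) := by ring
    rw [h2, hd]
    ring
  rw [h1]
  calc t * u + 2 ^ (c + 3 + 1) * (d + 3 * 2 ^ c) ≡ t * u [MOD 2 ^ (c + 3 + 1)] := by
        exact (Nat.modEq_iff_dvd' (by omega)).mpr ⟨d + 3 * 2 ^ c, by omega⟩ |>.symm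
    _ ≡ 1 [MOD 2 ^ (c + 3 + 1)] := h

lemma sgn_or' (m s k : ℕ) : sgn m s k = 1 ∨ sgn m s k = -1 := sgn_or m s k

/-- The quadrant identity. -/
lemma quarter_id {m t : ℕ} (hm : 3 ≤ m) (ht : Odd t) :
    ∃ c : ℤ, (sgn m t 1 + sgn m (t + 2 ^ (m - 1)) 1) + sgn m t 2 = 1 + 4 * c := by
  obtain ⟨u, hu⟩ := exists_inv (m + 1) ht
  rw [sgn_eq _ hu, sgn_eq _ (inv_quarter hm ht hu), sgn_eq _ hu]
  obtain ⟨c, rfl⟩ : ∃ c, m = c + 1 := ⟨m - 1, by omega⟩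
  have h1 : c + 1 - 1 = c := by omega
  rw [h1]
  have h2 : (2 : ℕ) ^ (c + 1 + 1) = 4 * 2 ^ c := by ring
  have h3 : (2 : ℕ) ^ (c + 1) = 2 * 2 ^ c := by ring
  rw [h2, h3]
  have hpos : 0 < 2 ^ c := by positivity
  have hlt := Nat.mod_lt u (show 0 < 4 * 2 ^ c by positivity)
  have e1 : (1 * u) % (4 * 2 ^ c) = u % (4 * 2 ^ c) := by rw [one_mul]
  have e2 : (1 * (u + 3 * 2 ^ c)) % (4 * 2 ^ c) = (u % (4 * 2 ^ c) + 3 * 2 ^ c) % (4 * 2 ^ c) := by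
    rw [one_mul, Nat.mod_add_mod]
  have e3 : (2 * u) % (4 * 2 ^ c) = (2 * (u % (4 * 2 ^ c))) % (4 * 2 ^ c) := by
    rw [Nat.mul_mod_mod]
  rw [e1, e2, e3]
  generalize u % (4 * 2 ^ c) = v at *
  generalize 2 ^ c = w at *
  rcases Nat.lt_or_ge v w with hv | hv
  · have a1 : (v + 3 * w) % (4 * w) = v + 3 * w := Nat.mod_eq_of_lt (by omega)
    have a2 : (2 * v) % (4 * w) = 2 * v := Nat.mod_eq_of_lt (by omega)
    rw [a1, a2, if_pos (by omega), if_neg (by omega), if_pos (by omega)]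
    exact ⟨0, by norm_num⟩
  · have a1 : (v + 3 * w) % (4 * w) = v - w := by
      have : v + 3 * w = (v - w) + 4 * w := by omega
      rw [this, Nat.add_mod_right]
      exact Nat.mod_eq_of_lt (by omega)
    rw [a1]
    rcases Nat.lt_or_ge v (2 * w) with hv2 | hv2
    · have a2 : (2 * v) % (4 * w) = 2 * v := Nat.mod_eq_of_lt (by omega)
      rw [a2, if_pos (by omega), if_pos (by omega), if_neg (by omega)]
      exact ⟨0, by norm_num⟩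
    · have a2 : (2 * v) % (4 * w) = 2 * v - 4 * w := by
        have : 2 * v = (2 * v - 4 * w) + 4 * w := by omega
        rw [this, Nat.add_mod_right]
        rw [Nat.add_sub_cancel]
        exact Nat.mod_eq_of_lt (by omega)
      rw [a2, if_neg (by omega)]
      rcases Nat.lt_or_ge v (3 * w) with hv3 | hv3
      · rw [if_pos (by omega), if_pos (by omega)]
        exact ⟨0, by norm_num⟩
      · rw [if_neg (by omega), if_neg (by omega)]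
        exact ⟨-1, by norm_num⟩

end Pool.Agent.K4H3.FE
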