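import Pool.Agent.K4H3.FE.Sgn

/-!
The doubling step: from level `r` to level `r + 1`.
-/

namespace Pool.Agent.K4H3.FE

open Pool.Agent.Y875.FP

/-- rational numbers in `2^N ℤ_(2)` -/
def D2 (N : ℕ) (q : ℚ) : Prop := ∃ d n : ℤ, Odd d ∧ (d : ℚ) * q = 2 ^ N * n

lemma D2.add {N : ℕ} {a b : ℚ} (ha : D2 N a) (hb : D2 N b) : D2 N (a + b) := by
  obtain ⟨d, B, hd, h1⟩ := ha
  obtain ⟨d', B', hd', h1'⟩ := hb
  refine ⟨d * d', d' * B + d * B', hd.mul hd', ?_⟩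
  push_cast
  linear_combination (d' : ℚ) * h1 + (d : ℚ) * h1'

lemma D2.int_mul {N : ℕ} {a : ℚ} (ha : D2 N a) (c : ℤ) : D2 N (c * a) := by
  obtain ⟨d, B, hd, h1⟩ := ha
  refine ⟨d, c * B, hd, ?_⟩
  push_cast
  linear_combination (c : ℚ) * h1

lemma D2.neg {N : ℕ} {a : ℚ} (ha : D2 N a) : D2 N (-a) := by
  have := ha.int_mul (-1)
  push_cast at this
  rwa [neg_one_mul] at this

lemma D2.sub {N : ℕ} {a b : ℚ} (ha : D2 N a) (hb : D2 N b) : D2 N (a - b) := by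
  rw [sub_eq_add_neg]
  exact ha.add hb.neg

lemma D2.zero (N : ℕ) : D2 N 0 := ⟨1, 0, odd_one, by simp⟩

lemma D2.int {N : ℕ} (c : ℤ) : D2 N (2 ^ N * c) := ⟨1, c, odd_one, by simp⟩

lemma D2.of_dvd {N : ℕ} {c : ℤ} (h : (2 : ℤ) ^ N ∣ c) : D2 N (c : ℚ) := by
  obtain ⟨b, rfl⟩ := h
  exact ⟨1, b, odd_one, by push_cast; ring⟩

lemma D2.mono {N M : ℕ} (h : M ≤ N) {a : ℚ} (ha : D2 N a) : D2 M a := by
  obtain ⟨d, B, hd, h1⟩ := ha
  obtain ⟨c, rfl⟩ := Nat.exists_eq_add_of_le h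
  refine ⟨d, 2 ^ c * B, hd, ?_⟩
  rw [h1, pow_add]
  push_cast
  ring

lemma D2.pow_mul {N c : ℕ} {a : ℚ} (ha : D2 N a) : D2 (c + N) (2 ^ c * a) := by
  obtain ⟨d, B, hd, h1⟩ := ha
  refine ⟨d, B, hd, ?_⟩
  rw [pow_add]
  linear_combination (2 : ℚ) ^ c * h1

/-- integers in `2^N ℤ_(2)` -/
lemma D2.dvd {N : ℕ} {c : ℤ} (h : D2 N (c : ℚ)) : (2 : ℤ) ^ N ∣ c := by
  obtain ⟨d, B, hd, h1⟩ := h
  have h2 : d * c = 2 ^ N * B := by exact_mod_cast h1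
  have hcop : IsCoprime ((2 : ℤ) ^ N) d := by
    apply IsCoprime.pow_left
    obtain ⟨c, hc⟩ := hd
    exact ⟨-c, 1, by rw [hc]; ring⟩
  exact hcop.dvd_of_dvd_mul_left ⟨B, h2⟩

lemma D2.sum {N : ℕ} {ι : Type} (S : Finset ι) {f : ι → ℚ} (h : ∀ i ∈ S, D2 N (f i)) :
    D2 N (∑ i ∈ S, f i) := by
  classical
  induction S using Finset.induction_on with
  | empty => simpa using D2.zero N
  | insert a S ha ih =>
    rw [Finset.sum_insert ha]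
    exact (h a (Finset.mem_insert_self _ _)).add
      (ih fun i hi => h i (Finset.mem_insert_of_mem hi))

/-- `2^a / k` -/
lemma D2.div {N a k : ℕ} (hk : k ≠ 0) (h : ∀ e : ℕ, 2 ^ e ∣ k → e + N ≤ a) :
    D2 N ((2 : ℚ) ^ a / (k : ℚ)) := by
  obtain ⟨e, o, ho, he⟩ := Nat.exists_eq_two_pow_mul_odd hk
  have h1 := h e ⟨o, he⟩
  obtain ⟨c, rfl⟩ := Nat.exists_eq_add_of_le h1
  refine ⟨o, 2 ^ c, by exact_mod_cast ho, ?_⟩
  have h4 : (o : ℚ) ≠ 0 := by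
    have : o ≠ 0 := by
      rintro rfl
      simp at ho
    exact_mod_cast this
  have h3 : (k : ℚ) = 2 ^ e * o := by rw [he]; push_cast; ring
  rw [h3, pow_add, pow_add]
  push_cast
  field_simp

/-- the `k`-th term of the series, `k = j + 1` -/
def tm (μ x t j : ℕ) : ℚ := (sgn μ t (j + 1) : ℚ) * ((x : ℚ) ^ (j + 1) / ((j + 1 : ℕ) : ℚ))

lemma AA_eq (μ x t K : ℕ) : AA μ x t K = ∑ k ∈ Finset.range K, tm μ x t k := rfl

lemma D2_tm {N μ r t j : ℕ} (h : ∀ e : ℕ, 2 ^ e ∣ j + 1 → e + N ≤ 2 ^ r * (j + 1)) :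
    D2 N (tm μ (2 ^ 2 ^ r) t j) := by
  unfold tm
  apply D2.int_mul
  have h1 : (((2 : ℕ) ^ 2 ^ r : ℕ) : ℚ) ^ (j + 1) = (2 : ℚ) ^ (2 ^ r * (j + 1)) := by
    push_cast
    rw [← pow_mul]
  rw [h1]
  exact D2.div (by omega) h

lemma le_of_two_pow_dvd {e k : ℕ} (hk : 0 < k) (h : 2 ^ e ∣ k) : e + 1 ≤ k := by
  have h1 := Nat.le_of_dvd hk h
  have h2 := Nat.lt_two_pow_self (n := e)
  omega

/-- extending the range -/
lemma D2_AA_sub {m μ r t K L : ℕ} (hr : 1 ≤ r) (hK : m + 2 ≤ K) (hL : m + 2 ≤ L) :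
    D2 (m + 3) (AA μ (2 ^ 2 ^ r) t K - AA μ (2 ^ 2 ^ r) t L) := by
  have key : ∀ K, m + 2 ≤ K → D2 (m + 3) (AA μ (2 ^ 2 ^ r) t K - AA μ (2 ^ 2 ^ r) t (m + 2)) := by
    intro K hK
    rw [AA_eq, AA_eq, ← Finset.sum_range_add_sum_Ico _ hK, add_sub_cancel_left]
    apply D2.sum
    intro j hj
    rw [Finset.mem_Ico] at hj
    apply D2_tm
    intro e he
    have h1 := le_of_two_pow_dvd (by omega) he
    have h2 : 2 ≤ 2 ^ r := by
      calc 2 = 2 ^ 1 := by norm_num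
        _ ≤ 2 ^ r := Nat.pow_le_pow_right (by norm_num) hr
    have h3 : 2 * (j + 1) ≤ 2 ^ r * (j + 1) := Nat.mul_le_mul_right _ h2
    omega
  have := (key K hK).sub (key L hL)
  have h : AA μ (2 ^ 2 ^ r) t K - AA μ (2 ^ 2 ^ r) t (m + 2) -
      (AA μ (2 ^ 2 ^ r) t L - AA μ (2 ^ 2 ^ r) t (m + 2)) =
      AA μ (2 ^ 2 ^ r) t K - AA μ (2 ^ 2 ^ r) t L := by ring
  rwa [h] at this

lemma sum_range_double {M : Type} [AddCommMonoid M] (f : ℕ → M) (K : ℕ) :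
    ∑ j ∈ Finset.range (2 * K), f j =
      ∑ j ∈ Finset.range K, f (2 * j) + ∑ j ∈ Finset.range K, f (2 * j + 1) := by
  induction K with
  | zero => simp
  | succ K ih =>
    have h : 2 * (K + 1) = 2 * K + 1 + 1 := by ring
    rw [h, Finset.sum_range_succ, Finset.sum_range_succ, ih, Finset.sum_range_succ,
      Finset.sum_range_succ]
    abel

/-- the terms with odd `k` -/
def OO (μ x t K : ℕ) : ℚ := ∑ j ∈ Finset.range K, tm μ x t (2 * j)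

lemma AA_step {μ x t K : ℕ} (ht : Odd t) :
    (t : ℚ) * AA (μ + 1) x t (2 * K) +
      ((t + 2 ^ (μ + 1) : ℕ) : ℚ) * AA (μ + 1) x (t + 2 ^ (μ + 1)) (2 * K) =
    t * AA μ (x ^ 2) t K + 2 ^ μ * AA μ (x ^ 2) t K - 2 ^ (μ + 1) * OO (μ + 1) x t K := by
  have e1 : ∀ j, tm (μ + 1) x (t + 2 ^ (μ + 1)) (2 * j) = - tm (μ + 1) x t (2 * j) := by
    intro j
    unfold tm
    rw [sgn_shift_odd (by omega) ht]
    push_cast
    ring
  have e2 : ∀ j, tm (μ + 1) x (t + 2 ^ (μ + 1)) (2 * j + 1) = tm (μ + 1) x t (2 * j + 1) := by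
    intro j
    unfold tm
    have h : 2 * j + 1 + 1 = 2 * (j + 1) := by ring
    rw [h, sgn_shift_even (by omega) ht]
  have e3 : ∀ j, tm (μ + 1) x t (2 * j + 1) = tm μ (x ^ 2) t j / 2 := by
    intro j
    unfold tm
    have h : 2 * j + 1 + 1 = 2 * (j + 1) := by ring
    rw [h, sgn_two_mul ht]
    have hj : ((j + 1 : ℕ) : ℚ) ≠ 0 := by exact_mod_cast Nat.succ_ne_zero j
    push_cast at hj ⊢
    rw [← pow_mul]
    field_simp
  have h1 : AA (μ + 1) x t (2 * K) = OO (μ + 1) x t K + AA μ (x ^ 2) t K / 2 := by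
    rw [AA_eq, sum_range_double, AA_eq, Finset.sum_div]
    unfold OO
    congr 1
    exact Finset.sum_congr rfl fun j _ => e3 j
  have h2 : AA (μ + 1) x (t + 2 ^ (μ + 1)) (2 * K) =
      -OO (μ + 1) x t K + AA μ (x ^ 2) t K / 2 := by
    rw [AA_eq, sum_range_double, AA_eq, Finset.sum_div]
    unfold OO
    rw [← Finset.sum_neg_distrib]
    congr 1
    · exact Finset.sum_congr rfl fun j _ => e1 j
    · exact Finset.sum_congr rfl fun j _ => by rw [e2, e3]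
  rw [h1, h2]
  push_cast
  ring

end Pool.Agent.K4H3.FE
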